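import Pool.Agent.Q197.NP.Upper

/-! The limit form of the upper bound. -/

set_option autoImplicit false

open MeasureTheory Metric Filter Topology Set

namespace Pool.Agent.Q197.NP

variable {n : ℕ}

theorem core (C : RandomPacking n) {D : ℝ} (hD : 0 < D) (hC : C.MinDist D) (hn : 0 < n)
    {ρ B : ℝ} (hρ : 0 ≤ ρ) (hB : 0 ≤ B)
    (hfreq : ∀ ε > 0, ∃ᶠ T in atTop, (ρ - ε) * (vB n * T ^ n) ≤ C.count T)
    (hpairs : ∀ ε > 0, ∀ᶠ T in atTop, ∀ R, 0 ≤ R → R ≤ 2 * n * D →
      C.pairs T R ≤ C.count T * (ρ * (vB n * R ^ n) + B + ε)) :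
    ρ * (vB n * D ^ n) ≤ (n + 2) * (B + 4) / 2 := by
  have hn1 : (1 : ℝ) ≤ n := by exact_mod_cast hn
  rcases hρ.eq_or_lt with h0 | hρ0
  · rw [← h0, zero_mul]
    positivity
  set s := 1 / D ^ 2 with hs'
  have hs : 0 < s := by positivity
  have hsD : s * D ^ 2 = 1 := by rw [hs']; field_simp
  have hV := vB_pos n
  have hpi := Real.pi_pos
  set F := (Real.pi / s) ^ ((n : ℝ) / 2) with hF
  set c1 := (Real.pi / (4 * s)) ^ ((n : ℝ) / 2) with hc1
  have hc1pos : 0 < c1 := by positivity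
  set Q := ρ * (F - vB n * D ^ n * (2 * Real.exp (-1) / (n + 2))) + B * Real.exp (-1) +
          2 * Real.exp (-(2 * n ^ 2)) with hQ
  -- finite inequality, divided
  have h1 : ∀ L, 0 < L → ∀ ε, 0 < ε → ε < ρ → ∃ᶠ T : ℝ in atTop,
      (ρ - ε) * J n s L ^ 2 * (T / (T + L)) ^ n ≤ c1 * (1 + Q + ε * Real.exp (-1)) := by
    intro L hL ε hε hερ
    have h2 := ((hfreq ε hε).and_eventually (hpairs ε hε)).and_eventually
      (eventually_gt_atTop (0 : ℝ))
    refine h2.mono ?_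
    rintro T ⟨⟨h3, h4⟩, hT⟩
    have hN : 0 < C.count T := lt_of_lt_of_le (by
      have : 0 < ρ - ε := by linarith
      positivity) h3
    have h5 := fin_bound C hD hC hn hs hsD hT hL hρ (B := B + ε) (by
      intro R hR0 hR1
      rw [← add_assoc]
      exact h4 R hR0 hR1)
    have h6 : C.count T * J n s L ^ 2 ≤ vB n * (T + L) ^ n * (c1 * (1 + Q + ε * Real.exp (-1))) := by
      have h7 : C.count T * (C.count T * J n s L ^ 2) ≤ C.count T *
          (vB n * (T + L) ^ n * (c1 * (1 + Q + ε * Real.exp (-1)))) := by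
        rw [hQ]
        refine le_trans (le_of_eq ?_) (h5.trans (le_of_eq ?_))
        · ring
        · ring
      exact le_of_mul_le_mul_left h7 hN
    have h8 : (ρ - ε) * (vB n * T ^ n) * J n s L ^ 2 ≤
        vB n * (T + L) ^ n * (c1 * (1 + Q + ε * Real.exp (-1))) := by
      refine le_trans ?_ h6
      gcongr
    rw [div_pow, mul_div_assoc', div_le_iff₀ (by positivity)]
    have h9 : vB n * ((ρ - ε) * J n s L ^ 2 * T ^ n) ≤
        vB n * (c1 * (1 + Q + ε * Real.exp (-1)) * (T + L) ^ n) := by linarith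
    exact le_of_mul_le_mul_left h9 hV
  have h2 : ∀ L, 0 < L → ∀ ε, 0 < ε → ε < ρ →
      (ρ - ε) * J n s L ^ 2 ≤ c1 * (1 + Q + ε * Real.exp (-1)) := by
    intro L hL ε hε hερ
    have hlim : Tendsto (fun T : ℝ => (ρ - ε) * J n s L ^ 2 * (T / (T + L)) ^ n) atTop
        (𝓝 ((ρ - ε) * J n s L ^ 2 * 1 ^ n)) := by
      refine Tendsto.const_mul _ (Tendsto.pow ?_ n)
      have h3 : Tendsto (fun T : ℝ => 1 - L / (T + L)) atTop (𝓝 (1 - 0)) := by
        refine tendsto_const_nhds.sub (tendsto_const_nhds.div_atTop ?_)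
        exact tendsto_atTop_add_const_right _ _ tendsto_id
      rw [sub_zero] at h3
      refine h3.congr' ?_
      filter_upwards [eventually_gt_atTop (0 : ℝ)] with T hT
      field_simp
      ring
    rw [one_pow, mul_one] at hlim
    exact le_of_tendsto_of_frequently hlim (h1 L hL ε hε hερ)
  have h3 : ∀ ε, 0 < ε → ε < ρ → (ρ - ε) * F ≤ 1 + Q + ε * Real.exp (-1) := by
    intro ε hε hερ
    have hlim : Tendsto (fun L : ℝ => (ρ - ε) * J n s L ^ 2) atTop
        (𝓝 ((ρ - ε) * ((Real.pi / (2 * s)) ^ ((n : ℝ) / 2)) ^ 2)) :=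
      ((J_tendsto hs).pow 2).const_mul _
    have h4 := le_of_tendsto hlim (by
      filter_upwards [eventually_gt_atTop (0 : ℝ)] with L hL
      exact h2 L hL ε hε hερ)
    have h5 : ((Real.pi / (2 * s)) ^ ((n : ℝ) / 2)) ^ 2 = c1 * F := by
      rw [hc1, hF, ← Real.mul_rpow (by positivity) (by positivity), ← Real.rpow_natCast,
        ← Real.rpow_mul (by positivity)]
      rw [show Real.pi / (4 * s) * (Real.pi / s) = (Real.pi / (2 * s)) ^ (2 : ℝ) by
        rw [show (2 : ℝ) = ((2 : ℕ) : ℝ) by norm_num, Real.rpow_natCast]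
        field_simp
        norm_num]
      rw [← Real.rpow_mul (by positivity)]
      congr 1
      push_cast
      ring
    rw [h5] at h4
    have h6 : c1 * ((ρ - ε) * F) ≤ c1 * (1 + Q + ε * Real.exp (-1)) := by linarith
    exact le_of_mul_le_mul_left h6 hc1pos
  have h4 : ρ * F ≤ 1 + Q := by
    have hl1 : Tendsto (fun ε : ℝ => (ρ - ε) * F) (𝓝[>] 0) (𝓝 ((ρ - 0) * F)) :=
      ((tendsto_const_nhds.sub tendsto_id).mul_const F).mono_left nhdsWithin_le_nhds
    have hl2 : Tendsto (fun ε : ℝ => 1 + Q + ε * Real.exp (-1)) (𝓝[>] 0)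
        (𝓝 (1 + Q + 0 * Real.exp (-1))) :=
      (tendsto_const_nhds.add (tendsto_id.mul_const _)).mono_left nhdsWithin_le_nhds
    rw [sub_zero] at hl1
    rw [zero_mul, add_zero] at hl2
    refine le_of_tendsto_of_tendsto hl1 hl2 ?_
    filter_upwards [self_mem_nhdsWithin, mem_nhdsWithin_of_mem_nhds (Iio_mem_nhds hρ0)] with ε h5 h6
    exact h3 ε h5 h6
  rw [hQ] at h4
  -- numerics
  have he1 : Real.exp (-(2 * (n : ℝ) ^ 2)) ≤ Real.exp (-1) * Real.exp (-1) := by
    rw [← Real.exp_add]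
    apply Real.exp_le_exp.2
    nlinarith
  have he2 : 1 ≤ Real.exp (-1) * (2719 / 1000) := by
    have h5 := Real.exp_one_lt_d9
    have h6 : Real.exp (-1) * Real.exp 1 = 1 := by rw [← Real.exp_add]; simp
    have h7 := Real.exp_pos (-1)
    nlinarith
  have he3 : Real.exp (-1) ≤ 1 / 2 := by
    have h5 := Real.exp_one_gt_d9
    have h6 : Real.exp (-1) * Real.exp 1 = 1 := by rw [← Real.exp_add]; simp
    have h7 := Real.exp_pos (-1)
    nlinarith
  have hep := Real.exp_pos (-1)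
  have h5 : ρ * (vB n * D ^ n * (2 * Real.exp (-1) / (n + 2))) ≤ Real.exp (-1) * (B + 4) := by
    nlinarith
  have h6 : Real.exp (-1) * (ρ * (vB n * D ^ n) * (2 / (n + 2))) ≤ Real.exp (-1) * (B + 4) := by
    refine le_trans (le_of_eq ?_) h5
    ring
  have h7 := le_of_mul_le_mul_left h6 hep
  have h8 : ρ * (vB n * D ^ n) * (2 / (n + 2)) * ((n + 2) / 2) ≤ (B + 4) * ((n + 2) / 2) :=
    mul_le_mul_of_nonneg_right h7 (by positivity)
  have h9 : ρ * (vB n * D ^ n) * (2 / (n + 2)) * (((n : ℝ) + 2) / 2) = ρ * (vB n * D ^ n) := by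
    field_simp
  rw [h9] at h8
  linarith

end Pool.Agent.Q197.NP
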