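import Pool.Agent.Q197.NC.Lower

/-! Hard-core thinning on a regular graph. -/

set_option autoImplicit false

open Finset

namespace Pool.Agent.Q197.NP

open Pool.Agent.Q197.NC (wt wt_nonneg sum_wt)

section
variable {V : Type} [Fintype V] [DecidableEq V] (N : V → Finset V)

/-- the surviving points -/
def surv (ω : V → Bool) : Finset V :=
  Finset.univ.filter (fun x => ω x = true ∧ ∀ y ∈ N x, ω y = false)

lemma mem_surv {ω : V → Bool} {x : V} :
    x ∈ surv N ω ↔ ω x = true ∧ ∀ y ∈ N x, ω y = false := by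
  simp [surv]

variable {N} {b : ℕ} (hsymm : ∀ x y, y ∈ N x ↔ x ∈ N y) (hirr : ∀ x, x ∉ N x)
  (hb : ∀ x, (N x).card = b)

include hirr hb in
lemma one_survive (q : ℝ) (x : V) :
    ∑ ω : V → Bool, (if x ∈ surv N ω then wt q ω else 0) = q * (1 - q) ^ b := by
  have h2 : ∀ ω : V → Bool, (if x ∈ surv N ω then wt q ω else 0) =
      if (∀ a ∈ ({x} : Finset V), ω a = true) ∧ (∀ a ∈ N x, ω a = false)
        then wt q ω else 0 := by
    intro ω
    simp only [Finset.mem_singleton, forall_eq, mem_surv]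
  rw [Finset.sum_congr rfl (fun ω _ => h2 ω), sum_wt q (by
      rw [Finset.disjoint_singleton_left]
      exact hirr x), Finset.card_singleton, pow_one, hb]

include hsymm hb in
/-- the number of common neighbours, summed over the second point -/
lemma sum_common (x : V) : ∑ y : V, (N x ∩ N y).card = b * b := by
  have h1 : ∀ y : V, (N x ∩ N y).card = ∑ z ∈ N x, if y ∈ N z then 1 else 0 := by
    intro y
    rw [← Finset.filter_mem_eq_inter, Finset.card_filter]
    apply Finset.sum_congr rfl
    intro z _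
    simp [hsymm z y]
  rw [Finset.sum_congr rfl (fun y _ => h1 y), Finset.sum_comm]
  have h2 : ∀ z : V, ∑ y : V, (if y ∈ N z then 1 else 0) = b := by
    intro z
    rw [Finset.sum_boole, ← hb z]
    simp
  rw [Finset.sum_congr rfl (fun z _ => h2 z), Finset.sum_const, hb, smul_eq_mul]

include hsymm hirr hb in
/-- the probability that two given points survive -/
lemma two_survive {q : ℝ} (h0 : 0 ≤ q) (h1 : q < 1) {x y : V}
    (hxy : x ≠ y) (hV : q * b ≤ 1 / 2) :
    ∑ ω : V → Bool, (if x ∈ surv N ω ∧ y ∈ surv N ω then wt q ω else 0) ≤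
      (q * (1 - q) ^ b) ^ 2 * (1 + 2 * q * (N x ∩ N y).card) := by
  have hq1 : 0 < 1 - q := by linarith
  by_cases hdist : y ∈ N x
  · have : ∀ ω : V → Bool, (if x ∈ surv N ω ∧ y ∈ surv N ω then wt q ω else 0) = 0 := by
      intro ω
      rw [if_neg]
      rintro ⟨h2, h3⟩
      rw [mem_surv] at h2 h3
      have := h2.2 y hdist
      rw [h3.1] at this
      exact absurd this (by simp)
    rw [Finset.sum_congr rfl (fun ω _ => this ω), Finset.sum_const_zero]
    positivity
  · have hset : ∀ ω : V → Bool, (x ∈ surv N ω ∧ y ∈ surv N ω) ↔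
        ((∀ a ∈ ({x, y} : Finset V), ω a = true) ∧
          (∀ a ∈ N x ∪ N y, ω a = false)) := by
      intro ω
      rw [mem_surv, mem_surv]
      constructor
      · rintro ⟨⟨a1, a2⟩, b1, b2⟩
        refine ⟨?_, ?_⟩
        · intro a ha
          rw [Finset.mem_insert, Finset.mem_singleton] at ha
          rcases ha with rfl | rfl
          · exact a1
          · exact b1
        · intro a ha
          rw [Finset.mem_union] at ha
          rcases ha with ha | ha
          · exact a2 a ha
          · exact b2 a ha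
      · rintro ⟨c1, c2⟩
        exact ⟨⟨c1 x (by simp), fun a ha => c2 a (Finset.mem_union_left _ ha)⟩,
          c1 y (by simp), fun a ha => c2 a (Finset.mem_union_right _ ha)⟩
    have hdisj : Disjoint ({x, y} : Finset V) (N x ∪ N y) := by
      rw [Finset.disjoint_left]
      intro a ha hb'
      rw [Finset.mem_insert, Finset.mem_singleton] at ha
      rw [Finset.mem_union] at hb'
      rcases ha with rfl | rfl
      · rcases hb' with h | h
        · exact hirr _ h
        · exact hdist ((hsymm _ _).2 h)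
      · rcases hb' with h | h
        · exact hdist h
        · exact hirr _ h
    have hsum := sum_wt q hdisj
    simp_rw [hset]
    rw [hsum, Finset.card_pair hxy]
    set o := (N x ∩ N y).card with ho
    have hcard : (N x ∪ N y).card + o = 2 * b := by
      rw [ho, Finset.card_union_add_card_inter, hb, hb]
      ring
    have hoV : o ≤ b := by
      rw [← hb x]
      exact Finset.card_le_card Finset.inter_subset_left
    have hqo : q * o ≤ 1 / 2 := by
      refine le_trans ?_ hV
      gcongr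
    have hbern : 1 - q * o ≤ (1 - q) ^ o := by
      have := one_add_mul_le_pow (show (-2 : ℝ) ≤ -q by linarith) o
      calc 1 - q * o = 1 + o * -q := by ring
        _ ≤ (1 + -q) ^ o := this
        _ = _ := by rw [← sub_eq_add_neg]
    have hkey : 1 ≤ (1 - q) ^ o * (1 + 2 * q * o) := by
      have h5 : 0 ≤ q * o := by positivity
      calc (1 : ℝ) ≤ (1 - q * o) * (1 + 2 * q * o) := by nlinarith
        _ ≤ _ := by gcongr
    calc q ^ 2 * (1 - q) ^ (N x ∪ N y).card
        ≤ q ^ 2 * (1 - q) ^ (N x ∪ N y).card * ((1 - q) ^ o * (1 + 2 * q * o)) :=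
          le_mul_of_one_le_right (by positivity) hkey
      _ = q ^ 2 * (1 - q) ^ ((N x ∪ N y).card + o) * (1 + 2 * q * o) := by
          rw [pow_add]; ring
      _ = _ := by
          rw [hcard, mul_comm 2 b, pow_mul]
          ring

include hsymm hirr hb in
/-- Hard-core thinning on a `b`-regular graph. -/
theorem thinning : ∃ (p : (V → Bool) → ℝ) (S : (V → Bool) → Finset V) (P : ℝ),
    (∀ ω, 0 ≤ p ω) ∧ ∑ ω, p ω = 1 ∧ (∀ ω, ∀ x ∈ S ω, ∀ y ∈ S ω, y ∉ N x) ∧
    (∀ x, ∑ ω, (if x ∈ S ω then p ω else 0) = P) ∧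
    1 / (4 * ((b : ℝ) + 1)) ≤ P ∧ P ≤ 1 / (2 * ((b : ℝ) + 1)) ∧
    ∀ (x : V) (Y : Finset V), x ∉ Y →
      ∑ y ∈ Y, ∑ ω, (if x ∈ S ω ∧ y ∈ S ω then p ω else 0) ≤ P * (P * Y.card + 1 / 2) := by
  set q : ℝ := 1 / (2 * (b + 1)) with hq
  have hq0 : 0 < q := by positivity
  have hqb : q * (b + 1) = 1 / 2 := by rw [hq]; field_simp
  have hb0 : (0 : ℝ) ≤ b := by positivity
  have hq1 : q ≤ 1 / 2 := by nlinarith
  have hqb' : q * b ≤ 1 / 2 := by nlinarith
  set P := q * (1 - q) ^ b with hP
  have hP0 : 0 < P := by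
    have : 0 < 1 - q := by linarith
    positivity
  have hPq : P ≤ q := by
    rw [hP]
    have : (1 - q) ^ b ≤ 1 := pow_le_one₀ (by linarith) (by linarith)
    nlinarith
  refine ⟨wt q, surv N, P, wt_nonneg hq0.le (by linarith), ?_, ?_, ?_, ?_, ?_, ?_⟩
  · have h := sum_wt (ι := V) q (A := ∅) (T := ∅) (Finset.disjoint_empty_left _)
    simpa using h
  · intro ω x hx y hy hxy
    rw [mem_surv] at hx hy
    have := hx.2 y hxy
    rw [hy.1] at this
    exact absurd this (by simp)
  · intro x
    exact one_survive hirr hb q x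
  · have hbern : 1 / 2 ≤ (1 - q) ^ b := by
      have h1 := one_add_mul_le_pow (show (-2 : ℝ) ≤ -q by linarith) b
      rw [← sub_eq_add_neg] at h1
      refine le_trans ?_ h1
      linarith
    calc 1 / (4 * ((b : ℝ) + 1)) = q * (1 / 2) := by rw [hq]; field_simp; norm_num
      _ ≤ P := by rw [hP]; gcongr
  · exact hPq
  · intro x Y hxY
    have h1 : ∀ y ∈ Y, ∑ ω : V → Bool, (if x ∈ surv N ω ∧ y ∈ surv N ω then wt q ω else 0) ≤
        P ^ 2 * (1 + 2 * q * (N x ∩ N y).card) := by
      intro y hy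
      exact two_survive hsymm hirr hb hq0.le (by linarith)
        (fun h => hxY (h ▸ hy)) hqb'
    refine (Finset.sum_le_sum h1).trans ?_
    rw [← Finset.mul_sum, Finset.sum_add_distrib, Finset.sum_const, nsmul_eq_mul, mul_one,
      ← Finset.mul_sum]
    have h2 : ∑ y ∈ Y, ((N x ∩ N y).card : ℝ) ≤ ((b : ℝ) + 1) ^ 2 := by
      calc ∑ y ∈ Y, ((N x ∩ N y).card : ℝ) ≤ ∑ y, ((N x ∩ N y).card : ℝ) :=
            Finset.sum_le_sum_of_subset_of_nonneg (Finset.subset_univ _) fun _ _ _ => by positivity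
        _ = ((∑ y, (N x ∩ N y).card : ℕ) : ℝ) := by push_cast; rfl
        _ = (b : ℝ) * b := by rw [sum_common hsymm hb x]; push_cast; rfl
        _ ≤ _ := by nlinarith
    calc P ^ 2 * ((Y.card : ℝ) + 2 * q * _) ≤ P ^ 2 * ((Y.card : ℝ) + 2 * q * ((b : ℝ) + 1) ^ 2) := by
          gcongr
      _ = P * (P * Y.card + P * (2 * q * ((b : ℝ) + 1) ^ 2)) := by ring
      _ ≤ P * (P * Y.card + 1 / 2) := by
          gcongr
          calc P * (2 * q * ((b : ℝ) + 1) ^ 2) ≤ q * (2 * q * ((b : ℝ) + 1) ^ 2) := by gcongr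
            _ = 2 * (q * (b + 1)) ^ 2 := by ring
            _ = 1 / 2 := by rw [hqb]; norm_num

end

end Pool.Agent.Q197.NP
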