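import Pool.Agent.Q197.NP.Grid
import Pool.Agent.Q197.NP.Thin
import Pool.Agent.Q197.NP.Core

/-! A random packing without clustering. -/

set_option autoImplicit false

open MeasureTheory Metric Filter Topology Set

namespace Pool.Agent.Q197.NP

variable {n : ℕ}

/-- reduction modulo `m` -/
def red (m : ℕ) (z : Fin n → ℤ) : Fin n → ZMod m := fun i => (z i : ZMod m)

lemma red_sub (m : ℕ) (z w : Fin n → ℤ) : red m (z - w) = red m z - red m w := by
  ext i
  simp [red]

lemma red_inj {m : ℕ} {h : ℝ} (hh : 0 < h) {z w : Fin n → ℤ} (h1 : red m z = red m w)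
    (h2 : ‖kap h (z - w)‖ < m * h) : z = w := by
  by_contra hne
  obtain ⟨i, hi⟩ := Function.ne_iff.1 hne
  have h3 : ((z i - w i : ℤ) : ZMod m) = 0 := by
    have : red m z i = red m w i := by rw [h1]
    simp only [red] at this
    push_cast
    rw [this, sub_self]
  rw [ZMod.intCast_zmod_eq_zero_iff_dvd] at h3
  have h4 : (m : ℤ) ≤ |z i - w i| :=
    Int.le_of_dvd (abs_pos.2 (sub_ne_zero.2 hi)) ((dvd_abs _ _).2 h3)
  have h5 := coord_le (kap h (z - w)) i
  rw [kap_apply, abs_mul, abs_of_pos hh, Pi.sub_apply] at h5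
  have h6 : (m : ℝ) ≤ |((z i - w i : ℤ) : ℝ)| := by
    rw [← Int.cast_abs]
    exact_mod_cast h4
  have h7 : (m : ℝ) * h ≤ h * |((z i - w i : ℤ) : ℝ)| := by
    rw [mul_comm]
    gcongr
  linarith

/-- the grid points in an open ball -/
noncomputable def grid {h : ℝ} (hh : 0 < h) (n : ℕ) (T : ℝ) : Finset (Fin n → ℤ) := by
  classical
  exact (finite_grid hh T).toFinset.filter (fun z => ‖kap h z‖ < T)

lemma mem_grid {h : ℝ} (hh : 0 < h) {T : ℝ} {z : Fin n → ℤ} :
    z ∈ grid hh n T ↔ ‖kap h z‖ < T := by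
  classical
  unfold grid
  rw [Finset.mem_filter, Set.Finite.mem_toFinset]
  constructor
  · rintro ⟨_, h2⟩
    exact h2
  · intro h2
    exact ⟨h2.le, h2⟩

section
variable {m : ℕ} [NeZero m] {h : ℝ} (hh : 0 < h)

open Classical in
/-- the forbidden neighbours -/
noncomputable def nb (n m : ℕ) [NeZero m] (h : ℝ) (x : Fin n → ZMod m) :
    Finset (Fin n → ZMod m) :=
  Finset.univ.filter (fun y => y ≠ x ∧ ∃ z : Fin n → ℤ, ‖kap h z‖ < 1 ∧ red m z = y - x)

lemma mem_nb {x y : Fin n → ZMod m} :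
    y ∈ nb n m h x ↔ y ≠ x ∧ ∃ z : Fin n → ℤ, ‖kap h z‖ < 1 ∧ red m z = y - x := by
  simp [nb]

lemma nb_symm (x y : Fin n → ZMod m) : y ∈ nb n m h x ↔ x ∈ nb n m h y := by
  have key : ∀ x y : Fin n → ZMod m, y ∈ nb n m h x → x ∈ nb n m h y := by
    intro x y hy
    rw [mem_nb] at hy ⊢
    obtain ⟨h1, z, h2, h3⟩ := hy
    refine ⟨h1.symm, -z, ?_, ?_⟩
    · rw [kap_neg, norm_neg]
      exact h2
    · have : red m (-z) = -red m z := by
        ext i
        simp [red]
      rw [this, h3]
      abel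
  exact ⟨key x y, key y x⟩

include hh in
lemma nb_card (hm : 2 ≤ m * h) (x : Fin n → ZMod m) :
    (nb n m h x).card = (grid hh n 1).card - 1 := by
  classical
  have h0 : (0 : Fin n → ℤ) ∈ grid hh n 1 := by
    rw [mem_grid, kap_zero]
    simp
  rw [← Finset.card_erase_of_mem h0]
  have h1 : nb n m h x = ((grid hh n 1).erase 0).image (fun z => x + red m z) := by
    ext y
    rw [mem_nb, Finset.mem_image]
    constructor
    · rintro ⟨h1, z, h2, h3⟩
      refine ⟨z, ?_, ?_⟩
      · rw [Finset.mem_erase, mem_grid]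
        refine ⟨?_, h2⟩
        rintro rfl
        apply h1
        have : red m (0 : Fin n → ℤ) = 0 := by
          ext i
          simp [red]
        rw [this] at h3
        exact (sub_eq_zero.1 h3.symm)
      · rw [h3]
        abel
    · rintro ⟨z, hz, rfl⟩
      rw [Finset.mem_erase, mem_grid] at hz
      refine ⟨?_, z, hz.2, ?_⟩
      · intro h2
        apply hz.1
        have h3 : red m z = red m 0 := by
          have : red m (0 : Fin n → ℤ) = 0 := by
            ext i
            simp [red]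
          rw [this]
          exact add_eq_left.1 h2
        apply red_inj hh h3
        rw [sub_zero]
        linarith [hz.2]
      · abel
  rw [h1, Finset.card_image_of_injOn]
  intro z hz w hw hzw
  rw [Finset.mem_coe, Finset.mem_erase, mem_grid] at hz hw
  have h3 : red m z = red m w := add_left_cancel hzw
  apply red_inj hh h3
  rw [← kap_sub]
  calc ‖kap h z - kap h w‖ ≤ ‖kap h z‖ + ‖kap h w‖ := norm_sub_le _ _
    _ < m * h := by linarith [hz.2, hw.2]

end

/-- the pulled back random packing -/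
noncomputable def mk (n m : ℕ) [NeZero m] (h : ℝ) (p : ((Fin n → ZMod m) → Bool) → ℝ)
    (h0 : ∀ ω, 0 ≤ p ω) (h1 : ∑ ω, p ω = 1)
    (S : ((Fin n → ZMod m) → Bool) → Finset (Fin n → ZMod m)) : RandomPacking n where
  Ω := (Fin n → ZMod m) → Bool
  fin := inferInstance
  p := p
  nonneg := h0
  sum_one := h1
  centres := fun ω => {x | ∃ z : Fin n → ℤ, kap h z = x ∧ red m z ∈ S ω}

theorem construct (hn : 0 < n) : ∃ C : RandomPacking n, C.MinDist 1 ∧
    (∃ c : ℝ, 0 < c ∧ Tendsto (fun T : ℝ => C.count T / volume.real (ball (0 : E n) T)) atTop (𝓝 c) ∧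
      (1 / 2 : ℝ) ^ n / 6 ≤ c * volume.real (ball (0 : E n) (1 / 2)) ∧
      ∀ T R : ℝ, 0 ≤ R → R ≤ 2 * n * 1 →
        C.pairs T R ≤ C.count T * (c * volume.real (ball (0 : E n) R) + 1)) := by
  classical
  have hn' : (0 : ℝ) < n := by exact_mod_cast hn
  have hn1 : (1 : ℝ) ≤ n := by exact_mod_cast hn
  have hV := vB_pos n
  -- the parameters
  set δ : ℝ := 1 / (2 * n * (2 * n + 1) ^ n) with hδ
  have hδ0 : 0 < δ := by positivity
  have hδn : n * ((2 * n + 1) ^ n * δ) = 1 / 2 := by rw [hδ]; field_simp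
  have hpow1 : (1 : ℝ) ≤ (2 * n + 1) ^ n := one_le_pow₀ (by linarith)
  have hδn1 : n * δ ≤ 1 / 2 := by
    calc n * δ = n * (1 * δ) := by ring
      _ ≤ n * ((2 * n + 1) ^ n * δ) := by gcongr
      _ = 1 / 2 := hδn
  have hδ1 : δ ≤ 1 / 2 := by nlinarith
  set h : ℝ := δ / √n with hh'
  have hsq : 0 < √(n : ℝ) := by positivity
  have hh : 0 < h := by positivity
  have hhn : h * √n = δ := by rw [hh']; field_simp
  obtain ⟨m, hm⟩ := exists_nat_gt ((4 * n + 2) / h)
  rw [div_lt_iff₀ hh] at hm
  have hm0 : m ≠ 0 := by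
    rintro rfl
    rw [Nat.cast_zero, zero_mul] at hm
    linarith
  have : NeZero m := ⟨hm0⟩
  -- power estimates
  have hpow : ∀ R : ℝ, 0 ≤ R → R ≤ 2 * n → (R + δ) ^ n ≤ R ^ n + 1 / 2 := by
    intro R hR0 hR1
    have hX : 0 < R + δ := by linarith
    have h1 : (R + δ) ^ n * (1 - n * (δ / (R + δ))) ≤ R ^ n := by
      have h2 := one_add_mul_le_pow (show (-2 : ℝ) ≤ -(δ / (R + δ)) by
        have : δ / (R + δ) ≤ 1 := by rw [div_le_one hX]; linarith
        linarith) n
      calc (R + δ) ^ n * (1 - n * (δ / (R + δ))) = (R + δ) ^ n * (1 + n * -(δ / (R + δ))) := by ring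
        _ ≤ (R + δ) ^ n * (1 + -(δ / (R + δ))) ^ n := by gcongr
        _ = R ^ n := by
          rw [← mul_pow]
          congr 1
          field_simp
          ring
    have h3 : (R + δ) ^ n * (n * (δ / (R + δ))) ≤ 1 / 2 := by
      obtain ⟨k, rfl⟩ : ∃ k, n = k + 1 := ⟨n - 1, by omega⟩
      rw [pow_succ]
      calc (R + δ) ^ k * (R + δ) * (((k + 1 : ℕ) : ℝ) * (δ / (R + δ)))
          = ((k + 1 : ℕ) : ℝ) * ((R + δ) ^ k * δ) := by field_simp
        _ ≤ ((k + 1 : ℕ) : ℝ) * ((2 * ((k + 1 : ℕ) : ℝ) + 1) ^ (k + 1) * δ) := by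
            gcongr
            calc (R + δ) ^ k ≤ (2 * ((k + 1 : ℕ) : ℝ) + 1) ^ k := by
                  gcongr
                  linarith
              _ ≤ _ := pow_le_pow_right₀ (by linarith) (Nat.le_succ k)
        _ = 1 / 2 := hδn
    linarith
  have hpow_low : 1 / 2 ≤ (1 - δ) ^ n := by
    have h2 := one_add_mul_le_pow (show (-2 : ℝ) ≤ -δ by linarith) n
    rw [← sub_eq_add_neg] at h2
    refine le_trans ?_ h2
    linarith
  -- thinning
  have hm2 : 2 ≤ m * h := by linarith
  set b := (grid hh n 1).card - 1 with hb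
  have hone : (0 : Fin n → ℤ) ∈ grid hh n 1 := by
    rw [mem_grid, kap_zero]
    simp
  have hcard1 : 1 ≤ (grid hh n 1).card := Finset.card_pos.2 ⟨_, hone⟩
  have hb1 : (b : ℝ) + 1 = (grid hh n 1).card := by
    rw [hb, Nat.cast_sub hcard1]
    push_cast
    ring
  obtain ⟨p, S, P, p0, p1, hS, hP1, hPlow, hPup, hP2⟩ := thinning (N := nb n m h) (b := b)
    nb_symm (fun x hx => (mem_nb.1 hx).1 rfl) (nb_card hh hm2)
  rw [hb1] at hPlow hPup
  have hcardpos : (0 : ℝ) < (grid hh n 1).card := by exact_mod_cast hcard1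
  have hP0 : 0 < P := lt_of_lt_of_le (by positivity) hPlow
  have hhn0 : 0 < h ^ n := by positivity
  have hg_low : vB n * (1 - δ) ^ n ≤ (grid hh n 1).card * h ^ n := by
    rw [← hhn]
    apply grid_lower hn hh (by rw [hhn]; linarith)
    intro z hz
    rwa [mem_grid]
  have hg_up : ((grid hh n 1).card : ℝ) * h ^ n ≤ vB n * (1 + δ) ^ n := by
    rw [← hhn]
    apply grid_upper hn hh zero_le_one
    intro z hz
    exact ((mem_grid hh).1 hz).le
  let C : RandomPacking n := mk n m h p p0 p1 S
  have hcen : ∀ ω, C.centres ω = {x | ∃ z : Fin n → ℤ, kap h z = x ∧ red m z ∈ S ω} := fun ω => rfl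
  -- counting
  have hcount : ∀ T, C.count T = P * (grid hh n T).card := by
    intro T
    have e1 : C.count T = ∑ ω, p ω * ((C.centres ω ∩ ball 0 T).ncard : ℝ) := rfl
    rw [e1]
    have e2 : ∀ ω, p ω * ((C.centres ω ∩ ball 0 T).ncard : ℝ) =
        ∑ z ∈ grid hh n T, if red m z ∈ S ω then p ω else 0 := by
      intro ω
      rw [← Finset.sum_filter, Finset.sum_const, nsmul_eq_mul, mul_comm]
      congr 2
      rw [← Set.ncard_coe_finset, ← Set.ncard_image_of_injective _ (kap_inj hh)]
      congr 1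
      ext x
      rw [hcen]
      simp only [Set.mem_inter_iff, Set.mem_ofPred_eq, Set.mem_image, Finset.coe_filter,
        mem_ball_zero_iff, mem_grid]
      constructor
      · rintro ⟨⟨z, rfl, hz⟩, hx⟩
        exact ⟨z, ⟨hx, hz⟩, rfl⟩
      · rintro ⟨z, ⟨hx, hz⟩, rfl⟩
        exact ⟨⟨z, rfl, hz⟩, hx⟩
    rw [Finset.sum_congr rfl (fun ω _ => e2 ω), Finset.sum_comm,
      Finset.sum_congr rfl (fun z _ => hP1 (red m z)), Finset.sum_const, nsmul_eq_mul, mul_comm]
  refine ⟨C, ?_, P / h ^ n, by positivity, ?_, ?_, ?_⟩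
  · -- minimum distance
    intro ω x hx y hy hxy
    rw [hcen] at hx hy
    obtain ⟨z, rfl, hz⟩ := hx
    obtain ⟨w, rfl, hw⟩ := hy
    by_contra hlt
    rw [not_le] at hlt
    have hzw : z ≠ w := fun he => hxy (by rw [he])
    apply hS ω _ hz _ hw
    rw [mem_nb]
    refine ⟨?_, w - z, ?_, red_sub m w z⟩
    · intro he
      apply hzw
      apply red_inj hh he.symm
      rw [← kap_sub]
      linarith
    · rw [← kap_sub, norm_sub_rev]
      exact hlt
  · -- the intensity
    have hlo : ∀ᶠ T : ℝ in atTop, P / h ^ n * (1 - δ / T) ^ n ≤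
        C.count T / volume.real (ball (0 : E n) T) := by
      filter_upwards [eventually_gt_atTop 1] with T hT
      have hT0 : 0 < T := by linarith
      rw [hcount, vol_ball _ hT0, le_div_iff₀ (by positivity)]
      have h1 : vB n * (T - δ) ^ n ≤ (grid hh n T).card * h ^ n := by
        rw [← hhn]
        apply grid_lower hn hh (by rw [hhn]; linarith)
        intro z hz
        rwa [mem_grid]
      have h2 : (1 - δ / T) ^ n * T ^ n = (T - δ) ^ n := by
        rw [← mul_pow]
        congr 1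
        field_simp
      calc P / h ^ n * (1 - δ / T) ^ n * (vB n * T ^ n) =
          P / h ^ n * (vB n * ((1 - δ / T) ^ n * T ^ n)) := by ring
        _ = P / h ^ n * (vB n * (T - δ) ^ n) := by rw [h2]
        _ ≤ P / h ^ n * ((grid hh n T).card * h ^ n) := by gcongr
        _ = _ := by field_simp
    have hup : ∀ᶠ T : ℝ in atTop, C.count T / volume.real (ball (0 : E n) T) ≤
        P / h ^ n * (1 + δ / T) ^ n := by
      filter_upwards [eventually_gt_atTop 1] with T hT
      have hT0 : 0 < T := by linarith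
      rw [hcount, vol_ball _ hT0, div_le_iff₀ (by positivity)]
      have h1 : ((grid hh n T).card : ℝ) * h ^ n ≤ vB n * (T + δ) ^ n := by
        rw [← hhn]
        apply grid_upper hn hh hT0.le
        intro z hz
        exact ((mem_grid hh).1 hz).le
      have h2 : (1 + δ / T) ^ n * T ^ n = (T + δ) ^ n := by
        rw [← mul_pow]
        congr 1
        field_simp
      calc P * ((grid hh n T).card : ℝ) = P / h ^ n * ((grid hh n T).card * h ^ n) := by
            field_simp
        _ ≤ P / h ^ n * (vB n * (T + δ) ^ n) := by gcongr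
        _ = P / h ^ n * (vB n * ((1 + δ / T) ^ n * T ^ n)) := by rw [h2]
        _ = _ := by ring
    have hd : Tendsto (fun T : ℝ => δ / T) atTop (𝓝 0) :=
      tendsto_const_nhds.div_atTop tendsto_id
    have hl1 : Tendsto (fun T : ℝ => P / h ^ n * (1 - δ / T) ^ n) atTop (𝓝 (P / h ^ n)) := by
      have := ((tendsto_const_nhds (x := (1 : ℝ))).sub hd).pow n |>.const_mul (P / h ^ n)
      simpa using this
    have hl2 : Tendsto (fun T : ℝ => P / h ^ n * (1 + δ / T) ^ n) atTop (𝓝 (P / h ^ n)) := by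
      have := ((tendsto_const_nhds (x := (1 : ℝ))).add hd).pow n |>.const_mul (P / h ^ n)
      simpa using this
    exact tendsto_of_tendsto_of_tendsto_of_le_of_le' hl1 hl2 hlo hup
  · -- the density
    rw [vol_ball _ (by norm_num : (0 : ℝ) < 1 / 2)]
    have h1 : ((grid hh n 1).card : ℝ) * h ^ n ≤ vB n * (3 / 2) := by
      refine hg_up.trans ?_
      gcongr
      have := hpow 1 zero_le_one (by linarith)
      rw [one_pow] at this
      linarith
    have h2 : 1 / 6 ≤ P / h ^ n * vB n := by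
      have h3 : 1 / (4 * ((grid hh n 1).card : ℝ)) / h ^ n * vB n ≤ P / h ^ n * vB n := by gcongr
      refine le_trans ?_ h3
      rw [div_div, div_mul_eq_mul_div, one_mul, le_div_iff₀ (by positivity)]
      linarith
    calc (1 / 2 : ℝ) ^ n / 6 = 1 / 6 * (1 / 2) ^ n := by ring
      _ ≤ P / h ^ n * vB n * (1 / 2) ^ n := by gcongr
      _ = _ := by ring
  · -- pairs
    intro T R hR0 hR1
    rw [mul_one] at hR1
    set G := grid hh n T with hG
    set Q : Finset ((Fin n → ℤ) × (Fin n → ℤ)) :=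
      (G ×ˢ G).filter (fun z => z.1 ≠ z.2 ∧ ‖kap h (z.1 - z.2)‖ ≤ R) with hQ
    have e1 : C.pairs T R = ∑ ω, p ω * ((near (C.centres ω) T R).ncard : ℝ) := rfl
    have e2 : ∀ ω, p ω * ((near (C.centres ω) T R).ncard : ℝ) =
        ∑ z ∈ Q, if red m z.1 ∈ S ω ∧ red m z.2 ∈ S ω then p ω else 0 := by
      intro ω
      rw [← Finset.sum_filter, Finset.sum_const, nsmul_eq_mul, mul_comm]
      congr 2
      have hinj : Function.Injective (Prod.map (kap (n := n) h) (kap (n := n) h)) :=
        (kap_inj hh).prodMap (kap_inj hh)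
      rw [← Set.ncard_coe_finset, ← Set.ncard_image_of_injective _ hinj]
      congr 1
      ext ⟨x, y⟩
      rw [hcen]
      simp only [near, Set.mem_ofPred_eq, Set.mem_image, Finset.coe_filter, hQ, hG,
        Finset.mem_filter, Finset.mem_product, mem_grid, Prod.exists, Prod.map_apply,
        Prod.mk.injEq]
      constructor
      · rintro ⟨⟨z, rfl, hz⟩, ⟨w, rfl, hw⟩, hx, hy, hne, hd⟩
        refine ⟨z, w, ⟨⟨⟨hx, hy⟩, ?_, ?_⟩, hz, hw⟩, rfl, rfl⟩
        · intro he
          exact hne (by rw [he])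
        · rw [← kap_sub]
          exact hd
      · rintro ⟨z, w, ⟨⟨⟨hx, hy⟩, hne, hd⟩, hz, hw⟩, rfl, rfl⟩
        refine ⟨⟨z, rfl, hz⟩, ⟨w, rfl, hw⟩, hx, hy, ?_, ?_⟩
        · intro he
          exact hne (kap_inj hh he)
        · rw [kap_sub]
          exact hd
    rw [e1, Finset.sum_congr rfl (fun ω _ => e2 ω), Finset.sum_comm]
    -- split according to the first point
    have e3 : ∑ z ∈ Q, ∑ ω, (if red m z.1 ∈ S ω ∧ red m z.2 ∈ S ω then p ω else 0) =
        ∑ z ∈ G, ∑ w ∈ G.filter (fun w => z ≠ w ∧ ‖kap h (z - w)‖ ≤ R),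
          ∑ ω, (if red m z ∈ S ω ∧ red m w ∈ S ω then p ω else 0) := by
      rw [hQ, Finset.sum_filter, Finset.sum_product]
      apply Finset.sum_congr rfl
      intro z _
      rw [Finset.sum_filter]
    rw [e3, hcount]
    -- grid points of the closed ball
    set FR := (finite_grid (n := n) hh R).toFinset with hFR
    have hFRmem : ∀ z, z ∈ FR ↔ ‖kap h z‖ ≤ R := by
      intro z
      rw [hFR, Set.Finite.mem_toFinset]
      rfl
    have hFRcard : (FR.card : ℝ) * h ^ n ≤ vB n * (R + δ) ^ n := by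
      rw [← hhn]
      exact grid_upper hn hh hR0 FR fun z hz => (hFRmem z).1 hz
    have hinner : ∀ z ∈ G, ∑ w ∈ G.filter (fun w => z ≠ w ∧ ‖kap h (z - w)‖ ≤ R),
          ∑ ω, (if red m z ∈ S ω ∧ red m w ∈ S ω then p ω else 0) ≤
        P * (P * FR.card + 1 / 2) := by
      intro z _
      set W := G.filter (fun w => z ≠ w ∧ ‖kap h (z - w)‖ ≤ R) with hW
      have hWinj : Set.InjOn (red m) (W : Set (Fin n → ℤ)) := by
        intro w hw w' hw' hww
        rw [Finset.mem_coe, hW, Finset.mem_filter] at hw hw'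
        apply red_inj hh hww
        have h1 : kap h (w - w') = kap h (z - w') - kap h (z - w) := by
          rw [kap_sub]
          congr 1
          abel
        rw [h1]
        calc ‖kap h (z - w') - kap h (z - w)‖ ≤ ‖kap h (z - w')‖ + ‖kap h (z - w)‖ :=
              norm_sub_le _ _
          _ < m * h := by linarith [hw.2.2, hw'.2.2]
      have h1 : ∑ w ∈ W, ∑ ω, (if red m z ∈ S ω ∧ red m w ∈ S ω then p ω else 0) =
          ∑ y ∈ W.image (red m), ∑ ω, (if red m z ∈ S ω ∧ y ∈ S ω then p ω else 0) := by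
        rw [Finset.sum_image hWinj]
      rw [h1]
      have h2 := hP2 (red m z) (W.image (red m)) (by
        intro hmem
        rw [Finset.mem_image] at hmem
        obtain ⟨w, hw, hwz⟩ := hmem
        rw [hW, Finset.mem_filter] at hw
        apply hw.2.1
        apply red_inj hh hwz.symm
        linarith [hw.2.2])
      refine h2.trans ?_
      have h3 : (W.image (red m)).card ≤ FR.card := by
        refine Finset.card_image_le.trans ?_
        apply Finset.card_le_card_of_injOn (fun w => z - w)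
        · intro w hw
          rw [Finset.mem_coe, hW, Finset.mem_filter] at hw
          rw [Finset.mem_coe, hFRmem]
          exact hw.2.2
        · intro w _ w' _ hww
          exact sub_right_injective hww
      gcongr
    refine (Finset.sum_le_sum hinner).trans ?_
    rw [Finset.sum_const, nsmul_eq_mul]
    have hvolR : volume.real (ball (0 : E n) R) = vB n * R ^ n := by
      rcases hR0.eq_or_lt with h0 | h0
      · rw [← h0, ball_zero, measureReal_empty, zero_pow hn.ne', mul_zero]
      · exact vol_ball _ h0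
    rw [hvolR]
    have hPV : P / h ^ n * vB n ≤ 1 := by
      have h3 : P / h ^ n * vB n ≤ 1 / (2 * ((grid hh n 1).card : ℝ)) / h ^ n * vB n := by gcongr
      refine h3.trans ?_
      rw [div_div, div_mul_eq_mul_div, one_mul, div_le_one (by positivity)]
      nlinarith
    have hfin : P * FR.card + 1 / 2 ≤ P / h ^ n * (vB n * R ^ n) + 1 := by
      have h4 : P * (FR.card : ℝ) ≤ P / h ^ n * (vB n * (R + δ) ^ n) := by
        calc P * (FR.card : ℝ) = P / h ^ n * (FR.card * h ^ n) := by field_simp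
          _ ≤ _ := by gcongr
      have h5 := hpow R hR0 hR1
      have h6 : P / h ^ n * (vB n * (R + δ) ^ n) ≤ P / h ^ n * vB n * (R ^ n + 1 / 2) := by
        calc P / h ^ n * (vB n * (R + δ) ^ n) = P / h ^ n * vB n * (R + δ) ^ n := by ring
          _ ≤ _ := by gcongr
      have h7 : P / h ^ n * vB n * (1 / 2) ≤ 1 / 2 := by linarith
      have h8 : P / h ^ n * vB n * (R ^ n + 1 / 2) = P / h ^ n * (vB n * R ^ n) +
        P / h ^ n * vB n * (1 / 2) := by ring
      linarith
    calc (G.card : ℝ) * (P * (P * FR.card + 1 / 2)) = P * G.card * (P * FR.card + 1 / 2) := by ring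
      _ ≤ _ := by gcongr

end Pool.Agent.Q197.NP
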