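import Pool.Agent.H818R2.Defs

/-! Random packings without clustering: definitions. -/

set_option autoImplicit false

open MeasureTheory Metric Filter

namespace Pool.Agent.Q197.NP

variable {n : ℕ}

/-- The ordered pairs of distinct points of `X` in the open ball of radius `T` about the origin
whose distance is at most `R`. -/
def near (X : Set (EuclideanSpace ℝ (Fin n))) (T R : ℝ) :
    Set (EuclideanSpace ℝ (Fin n) × EuclideanSpace ℝ (Fin n)) :=
  {z | z.1 ∈ X ∧ z.2 ∈ X ∧ ‖z.1‖ < T ∧ ‖z.2‖ < T ∧ z.1 ≠ z.2 ∧ ‖z.1 - z.2‖ ≤ R}

/-- A random set of centres in `ℝ^n` (chosen from a finite list with probabilities). -/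
structure RandomPacking (n : ℕ) where
  /-- the index set -/
  Ω : Type
  /-- it is finite -/
  fin : Fintype Ω
  /-- the probabilities -/
  p : Ω → ℝ
  nonneg : ∀ ω, 0 ≤ p ω
  sum_one : ∑ ω, p ω = 1
  /-- the sets of centres -/
  centres : Ω → Set (EuclideanSpace ℝ (Fin n))

attribute [instance] RandomPacking.fin

/-- distinct centres have distance at least `D` -/
def RandomPacking.MinDist (C : RandomPacking n) (D : ℝ) : Prop :=
  ∀ ω, ∀ x ∈ C.centres ω, ∀ y ∈ C.centres ω, x ≠ y → D ≤ ‖x - y‖

/-- the expected number of centres in the ball of radius `T` -/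
noncomputable def RandomPacking.count (C : RandomPacking n) (T : ℝ) : ℝ :=
  ∑ ω, C.p ω * (C.centres ω ∩ ball 0 T).ncard

/-- the expected number of ordered pairs of distinct centres in the ball of radius `T` at
distance at most `R` -/
noncomputable def RandomPacking.pairs (C : RandomPacking n) (T R : ℝ) : ℝ :=
  ∑ ω, C.p ω * (near (C.centres ω) T R).ncard

/-- the (upper) number of centres per unit of volume -/
noncomputable def RandomPacking.intensity (C : RandomPacking n) : ℝ :=
  limsup (fun T : ℝ => C.count T / volume.real (ball (0 : EuclideanSpace ℝ (Fin n)) T)) atTop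

/-- For no `R ≤ 2nD` the average number of other centres within distance `R` of a centre exceeds
the average number of centres in a ball of radius `R` by more than `B`. -/
def RandomPacking.Unclustered (C : RandomPacking n) (D B : ℝ) : Prop :=
  ∀ ε > 0, ∀ᶠ T in atTop, ∀ R, 0 ≤ R → R ≤ 2 * n * D →
    C.pairs T R ≤ C.count T *
      (C.intensity * volume.real (ball (0 : EuclideanSpace ℝ (Fin n)) R) + B + ε)

/-- The supremum of the densities of the random packings of `ℝ^n` by balls of diameter `1` with
excess at most `B`. -/
noncomputable def best (n : ℕ) (B : ℝ) : ℝ :=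
  sSup {δ | ∃ C : RandomPacking n, C.MinDist 1 ∧ C.Unclustered 1 B ∧
    C.intensity * volume.real (ball (0 : EuclideanSpace ℝ (Fin n)) (1 / 2)) = δ}

end Pool.Agent.Q197.NP
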