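import Pool.Agent.Q197.NP.Construct
import Pool.Agent.H818R2.Base

/-! Density of packings without clustering. -/

set_option autoImplicit false

open MeasureTheory Metric Filter Topology Set
open Pool.Agent.H818R2 (IsPacking body upperDensity)

namespace Pool.Agent.Q197.NP

variable {n : ℕ}

lemma count_nonneg (C : RandomPacking n) (T : ℝ) : 0 ≤ C.count T :=
  Finset.sum_nonneg fun ω _ => mul_nonneg (C.nonneg ω) (by positivity)

lemma count_le (C : RandomPacking n) {D : ℝ} (hD : 0 < D) (hC : C.MinDist D) {T : ℝ}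
    (hT : 0 ≤ T) : C.count T ≤ (1 + 2 * (T / D)) ^ n := by
  have h1 : ∀ ω, ((C.centres ω ∩ ball 0 T).ncard : ℝ) ≤ (1 + 2 * (T / D)) ^ n := by
    intro ω
    have hfin := finite_inter hD (C.centres ω) (hC ω) T
    rw [Set.ncard_eq_toFinset_card _ hfin]
    apply card_ball_le hD _ _ 0 hT
    · intro x hx
      rw [Set.Finite.mem_toFinset, Set.mem_inter_iff, mem_ball_zero_iff] at hx
      rw [zero_sub, norm_neg]
      exact hx.2.le
    · intro x hx y hy
      rw [Set.Finite.mem_toFinset] at hx hy
      exact hC ω x hx.1 y hy.1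
  calc C.count T ≤ ∑ ω, C.p ω * (1 + 2 * (T / D)) ^ n :=
        Finset.sum_le_sum fun ω _ => mul_le_mul_of_nonneg_left (h1 ω) (C.nonneg ω)
    _ = _ := by rw [← Finset.sum_mul, C.sum_one, one_mul]

lemma ratio_bdd' (C : RandomPacking n) {D : ℝ} (hD : 0 < D) (hC : C.MinDist D) :
    IsBoundedUnder (· ≤ ·) atTop
      (fun T : ℝ => C.count T / volume.real (ball (0 : E n) T)) := by
  have hV := vB_pos n
  refine isBoundedUnder_of_eventually_le (a := (3 / D) ^ n / vB n) ?_
  filter_upwards [eventually_ge_atTop D] with T hT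
  have hT0 : 0 < T := lt_of_lt_of_le hD hT
  rw [vol_ball _ hT0, div_le_div_iff₀ (by positivity) hV]
  have h1 := count_le C hD hC hT0.le
  have h2 : 1 + 2 * (T / D) ≤ 3 / D * T := by
    have : 1 ≤ T / D := by rw [le_div_iff₀ hD]; linarith
    calc 1 + 2 * (T / D) ≤ T / D + 2 * (T / D) := by linarith
      _ = _ := by ring
  have h3 : C.count T ≤ (3 / D) ^ n * T ^ n := by
    refine h1.trans ?_
    rw [← mul_pow]
    gcongr
  calc C.count T * vB n ≤ (3 / D) ^ n * T ^ n * vB n := by gcongr
    _ = _ := by ring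

lemma ratio_nonneg' (C : RandomPacking n) (T : ℝ) :
    0 ≤ C.count T / volume.real (ball (0 : E n) T) :=
  div_nonneg (count_nonneg C T) measureReal_nonneg

lemma intensity_nonneg (C : RandomPacking n) {D : ℝ} (hD : 0 < D) (hC : C.MinDist D) :
    0 ≤ C.intensity :=
  le_limsup_of_frequently_le (Eventually.of_forall fun T => ratio_nonneg' C T).frequently
    (ratio_bdd' C hD hC)

/-- the upper bound -/
theorem upper (C : RandomPacking n) {D B : ℝ} (hn : 0 < n) (hD : 0 < D) (hB : 0 ≤ B)
    (hC : C.MinDist D) (hU : C.Unclustered D B) :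
    C.intensity * volume.real (ball (0 : E n) (D / 2)) ≤ (n + 2) * (B + 4) / 2 * (1 / 2) ^ n := by
  have hV := vB_pos n
  have h1 := core C hD hC hn (intensity_nonneg C hD hC) hB
    (by
      intro ε hε
      have h2 : C.intensity - ε < C.intensity := by linarith
      have h3 := frequently_lt_of_lt_limsup
        ((isBoundedUnder_of ⟨0, fun T => ratio_nonneg' C T⟩ :
          IsBoundedUnder (· ≥ ·) atTop (fun T : ℝ => C.count T /
            volume.real (ball (0 : E n) T))).isCoboundedUnder_le) h2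
      refine (h3.and_eventually (eventually_gt_atTop (0 : ℝ))).mono ?_
      rintro T ⟨h4, hT⟩
      rw [vol_ball _ hT, lt_div_iff₀ (by positivity)] at h4
      exact h4.le)
    (by
      intro ε hε
      filter_upwards [hU ε hε] with T hT R hR0 hR1
      have h2 := hT R hR0 hR1
      have h3 : volume.real (ball (0 : E n) R) = vB n * R ^ n := by
        rcases hR0.eq_or_lt with h0 | h0
        · rw [← h0, ball_zero, measureReal_empty, zero_pow hn.ne', mul_zero]
        · exact vol_ball _ h0
      rw [h3] at h2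
      exact h2)
  rw [vol_ball _ (by positivity)]
  calc C.intensity * (vB n * (D / 2) ^ n) = C.intensity * (vB n * D ^ n) * (1 / 2) ^ n := by
        rw [div_eq_mul_one_div D 2, mul_pow]; ring
    _ ≤ _ := by gcongr

theorem best_le (hn : 0 < n) {B : ℝ} (hB : 0 ≤ B) :
    best n B ≤ (n + 2) * (B + 4) / 2 * (1 / 2) ^ n := by
  unfold best
  apply Real.sSup_le
  · rintro δ ⟨C, h1, h2, rfl⟩
    exact upper C hn one_pos hB h1 h2
  · positivity

theorem le_best (hn : 0 < n) {B : ℝ} (hB : 1 ≤ B) : (1 / 2 : ℝ) ^ n / 6 ≤ best n B := by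
  obtain ⟨C, h1, c, hc, h2, h3, h4⟩ := construct hn
  have hI : C.intensity = c := h2.limsup_eq
  have h5 : C.Unclustered 1 B := by
    intro ε hε
    refine Eventually.of_forall fun T R hR0 hR1 => ?_
    refine (h4 T R hR0 hR1).trans ?_
    rw [hI]
    apply mul_le_mul_of_nonneg_left _ (count_nonneg C T)
    linarith
  refine h3.trans ?_
  apply le_csSup
  · refine ⟨(n + 2) * (B + 4) / 2 * (1 / 2) ^ n, ?_⟩
    rintro δ ⟨C', g1, g2, rfl⟩
    exact upper C' hn one_pos (by linarith) g1 g2
  · exact ⟨C, h1, h5, by rw [hI]⟩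

/-- a single packing -/
theorem single {X : Set (E n)} {r B : ℝ} (hn : 0 < n) (hX : IsPacking X r) (hB : 0 ≤ B)
    (hU : ∀ ε > 0, ∀ᶠ T : ℝ in atTop, ∀ R, 0 ≤ R → R ≤ 4 * n * r →
      ((near X T R).ncard : ℝ) ≤ (X ∩ ball 0 T).ncard *
        (upperDensity X r * (R / r) ^ n + B + ε)) :
    upperDensity X r ≤ (n + 2) * (B + 4) / 2 * (1 / 2) ^ n := by
  have hV := vB_pos n
  have hr := hX.1
  have hsep : ∀ x ∈ X, ∀ y ∈ X, x ≠ y → 2 * r ≤ ‖x - y‖ := by
    intro x hx y hy hxy
    have h := hX.2 hx hy hxy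
    simp only [Function.onFun] at h
    rw [disjoint_ball_ball_iff hr hr, dist_eq_norm] at h
    linarith
  let C : RandomPacking n :=
    { Ω := Unit
      fin := inferInstance
      p := fun _ => 1
      nonneg := fun _ => zero_le_one
      sum_one := by simp
      centres := fun _ => X }
  have hD : 0 < 2 * r := by positivity
  have hC : C.MinDist (2 * r) := fun _ => hsep
  have hcount : ∀ T, C.count T = (X ∩ ball 0 T).ncard := by
    intro T
    unfold RandomPacking.count
    change ∑ ω : Unit, (1 : ℝ) * ((X ∩ ball 0 T).ncard : ℝ) = _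
    simp
  have hpairs : ∀ T R, C.pairs T R = (near X T R).ncard := by
    intro T R
    unfold RandomPacking.pairs
    change ∑ ω : Unit, (1 : ℝ) * ((near X T R).ncard : ℝ) = _
    simp
  set δ := upperDensity X r with hδ
  have hδ0 : 0 ≤ δ := Pool.Agent.H818R2.upperDensity_nonneg X r
  set ρ := δ / (vB n * r ^ n) with hρ
  have hvr : 0 < vB n * r ^ n := by positivity
  have hρδ : ρ * (vB n * r ^ n) = δ := by rw [hρ]; field_simp
  -- the body
  have hbody : ∀ T : ℝ, volume.real (ball (0 : E n) T ∩ body X r) ≤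
      C.count (T + r) * (vB n * r ^ n) := by
    intro T
    have hfin := finite_inter hD X hsep (T + r)
    rw [hcount, Set.ncard_eq_toFinset_card _ hfin]
    have hsub : ball (0 : E n) T ∩ body X r ⊆ ⋃ x ∈ hfin.toFinset, ball x r := by
      rintro z ⟨hz, hzX⟩
      simp only [body, Set.mem_iUnion, exists_prop] at hzX
      obtain ⟨x, hx, hxz⟩ := hzX
      simp only [Set.mem_iUnion, exists_prop]
      refine ⟨x, ?_, hxz⟩
      rw [Set.Finite.mem_toFinset, Set.mem_inter_iff, mem_ball_zero_iff]
      refine ⟨hx, ?_⟩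
      rw [mem_ball_zero_iff] at hz
      rw [mem_ball, dist_comm, dist_eq_norm] at hxz
      calc ‖x‖ = ‖z + (x - z)‖ := by congr 1; abel
        _ ≤ ‖z‖ + ‖x - z‖ := norm_add_le _ _
        _ < T + r := by linarith
    have hfinU : volume (⋃ x ∈ hfin.toFinset, ball x r) ≠ ⊤ := by
      refine (lt_of_le_of_lt (measure_biUnion_finset_le _ _) ?_).ne
      exact ENNReal.sum_lt_top.2 fun v _ => measure_ball_lt_top
    calc volume.real (ball (0 : E n) T ∩ body X r)
        ≤ volume.real (⋃ x ∈ hfin.toFinset, ball x r) := measureReal_mono hsub hfinU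
      _ ≤ ∑ x ∈ hfin.toFinset, volume.real (ball x r) := measureReal_biUnion_finset_le _ _
      _ = ∑ x ∈ hfin.toFinset, (vB n * r ^ n) :=
          Finset.sum_congr rfl fun x _ => vol_ball x hr
      _ = _ := by rw [Finset.sum_const, nsmul_eq_mul]
  have hfreq : ∀ ε > 0, ∃ᶠ T in atTop, (ρ - ε) * (vB n * T ^ n) ≤ C.count T := by
    intro ε hε
    set ε' := ε / 2 * (vB n * r ^ n) with hε'
    have hε'0 : 0 < ε' := by positivity
    have h2 : δ - ε' < δ := by linarith
    have h3 : ∃ᶠ T : ℝ in atTop, δ - ε' < volume.real (ball (0 : E n) T ∩ body X r) /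
        volume.real (ball (0 : E n) T) :=
      frequently_lt_of_lt_limsup (Pool.Agent.H818R2.ratio_cobdd X r) h2
    -- comparison of the radii
    have hlim : Tendsto (fun T : ℝ => (ρ - ε) * ((T + r) / T) ^ n) atTop
        (𝓝 ((ρ - ε) * 1 ^ n)) := by
      refine Tendsto.const_mul _ (Tendsto.pow ?_ n)
      have h4 : Tendsto (fun T : ℝ => 1 + r / T) atTop (𝓝 (1 + 0)) :=
        tendsto_const_nhds.add (tendsto_const_nhds.div_atTop tendsto_id)
      rw [add_zero] at h4
      refine h4.congr' ?_
      filter_upwards [eventually_gt_atTop (0 : ℝ)] with T hT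
      field_simp
    rw [one_pow, mul_one] at hlim
    have h5 := hlim.eventually_le_const (show ρ - ε < ρ - ε / 2 by linarith)
    have h6 : ∃ᶠ T : ℝ in atTop, (ρ - ε) * (vB n * (T + r) ^ n) ≤ C.count (T + r) := by
      refine ((h3.and_eventually h5).and_eventually (eventually_gt_atTop (0 : ℝ))).mono ?_
      rintro T ⟨⟨h7, h8⟩, hT⟩
      rw [vol_ball _ hT, lt_div_iff₀ (by positivity)] at h7
      have h9 := hbody T
      have h10 : (ρ - ε / 2) * (vB n * T ^ n) * (vB n * r ^ n) ≤ C.count (T + r) * (vB n * r ^ n) := by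
        have e1 : (ρ - ε / 2) * (vB n * T ^ n) * (vB n * r ^ n) = (δ - ε') * (vB n * T ^ n) := by
          rw [← hρδ, hε']; ring
        rw [e1]
        linarith
      have h11 := le_of_mul_le_mul_right h10 hvr
      refine le_trans ?_ h11
      have e2 : (ρ - ε) * (vB n * (T + r) ^ n) =
          (ρ - ε) * ((T + r) / T) ^ n * (vB n * T ^ n) := by
        rw [div_pow]
        field_simp
      rw [e2]
      gcongr
    exact (tendsto_atTop_add_const_right atTop r tendsto_id).frequently h6
  have h1 := core C hD hC hn (ρ := ρ) (by positivity) hB hfreq (by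
    intro ε hε
    filter_upwards [hU ε hε] with T hT R hR0 hR1
    rw [hcount, hpairs]
    have h2 := hT R hR0 (by linarith)
    refine h2.trans (le_of_eq ?_)
    congr 3
    rw [← hρδ, div_pow]
    field_simp)
  calc δ = ρ * (vB n * (2 * r) ^ n) * (1 / 2) ^ n := by
        rw [mul_pow, ← hρδ]
        have : (2 : ℝ) ^ n * (1 / 2) ^ n = 1 := by rw [← mul_pow]; norm_num
        calc ρ * (vB n * r ^ n) = ρ * (vB n * r ^ n) * (2 ^ n * (1 / 2) ^ n) := by rw [this, mul_one]
          _ = _ := by ring
    _ ≤ _ := by gcongr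

/-- the exponent -/
theorem rate {B : ℕ → ℝ} (hB : ∀ n, 1 ≤ B n)
    (hB2 : Tendsto (fun n : ℕ => Real.log (B n) / n) atTop (𝓝 0)) :
    Tendsto (fun n : ℕ => -Real.logb 2 (best n (B n)) / n) atTop (𝓝 1) := by
  have hl2 : 0 < Real.log 2 := Real.log_pos (by norm_num)
  have ha : Tendsto (fun n : ℕ => Real.log (n : ℝ) / n) atTop (𝓝 0) := by
    have h1 : Tendsto (fun x : ℝ => Real.log x / x) atTop (𝓝 0) := by
      simpa using Real.tendsto_pow_log_div_mul_add_atTop 1 0 1 one_ne_zero
    exact h1.comp tendsto_natCast_atTop_atTop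
  have hb : Tendsto (fun n : ℕ => Real.log 8 / (n : ℝ)) atTop (𝓝 0) :=
    tendsto_const_nhds.div_atTop tendsto_natCast_atTop_atTop
  have hup : Tendsto (fun n : ℕ => 1 + Real.logb 2 6 / (n : ℝ)) atTop (𝓝 (1 + 0)) :=
    tendsto_const_nhds.add (tendsto_const_nhds.div_atTop tendsto_natCast_atTop_atTop)
  have hlow : Tendsto (fun n : ℕ => 1 - (Real.log (n : ℝ) / n + Real.log 8 / (n : ℝ) +
      Real.log (B n) / n) / Real.log 2) atTop (𝓝 (1 - (0 + 0 + 0) / Real.log 2)) :=
    tendsto_const_nhds.sub (((ha.add hb).add hB2).div_const _)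
  rw [add_zero] at hup
  rw [add_zero, add_zero, zero_div, sub_zero] at hlow
  refine tendsto_of_tendsto_of_tendsto_of_le_of_le' hlow hup ?_ ?_
  · filter_upwards [eventually_gt_atTop 0] with n hn
    have hn' : (1 : ℝ) ≤ n := by exact_mod_cast hn
    have hBn := hB n
    have hpos : 0 < best n (B n) := lt_of_lt_of_le (by positivity) (le_best hn hBn)
    have h1 := best_le hn (show 0 ≤ B n by linarith)
    have h2 : best n (B n) ≤ n * 8 * B n * (1 / 2) ^ n := by
      refine h1.trans ?_
      gcongr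
      nlinarith [mul_nonneg (show (0 : ℝ) ≤ n by linarith) (show 0 ≤ B n by linarith),
        mul_nonneg (show (0 : ℝ) ≤ n - 1 by linarith) (show 0 ≤ B n - 1 by linarith)]
    have h3 := Real.logb_le_logb_of_le (b := 2) (by norm_num) hpos h2
    have h4 : Real.logb 2 (n * 8 * B n * (1 / 2) ^ n) =
        (Real.log (n : ℝ) + Real.log 8 + Real.log (B n)) / Real.log 2 - n := by
      rw [Real.logb_mul (by positivity) (by positivity), Real.logb_pow, Real.logb_mul
        (by positivity) (by positivity), Real.logb_mul (by positivity) (by norm_num)]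
      have : Real.logb 2 (1 / 2) = -1 := by
        rw [one_div, Real.logb_inv, Real.logb_self_eq_one (by norm_num)]
      rw [this]
      unfold Real.logb
      ring
    rw [h4] at h3
    rw [le_div_iff₀ (by linarith)]
    have h5 : (1 - (Real.log (n : ℝ) / n + Real.log 8 / (n : ℝ) + Real.log (B n) / n) /
        Real.log 2) * n = n - (Real.log (n : ℝ) + Real.log 8 + Real.log (B n)) / Real.log 2 := by
      field_simp
    rw [h5]
    linarith
  · filter_upwards [eventually_gt_atTop 0] with n hn
    have hn' : (1 : ℝ) ≤ n := by exact_mod_cast hn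
    have h1 := le_best hn (hB n)
    have h3 := Real.logb_le_logb_of_le (b := 2) (by norm_num) (by positivity) h1
    have h4 : Real.logb 2 ((1 / 2 : ℝ) ^ n / 6) = -n - Real.logb 2 6 := by
      rw [Real.logb_div (by positivity) (by norm_num), Real.logb_pow]
      have : Real.logb 2 (1 / 2) = -1 := by
        rw [one_div, Real.logb_inv, Real.logb_self_eq_one (by norm_num)]
      rw [this]
      ring
    rw [h4] at h3
    rw [div_le_iff₀ (by linarith)]
    have h5 : (1 + Real.logb 2 6 / (n : ℝ)) * n = n + Real.logb 2 6 := by field_simp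
    rw [h5]
    linarith

end Pool.Agent.Q197.NP
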