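import Mathlib

/-! Gaussians on Euclidean space: positivity and Abel summation. -/

set_option autoImplicit false

open MeasureTheory Metric Filter Topology Set

namespace Pool.Agent.Q197.NP

/-- the Euclidean space `ℝ^n` -/
abbrev E (n : ℕ) : Type := EuclideanSpace ℝ (Fin n)

variable {n : ℕ}

lemma gauss_int {b : ℝ} (hb : 0 < b) :
    ∫ v : E n, Real.exp (-b * ‖v‖ ^ 2) = (Real.pi / b) ^ ((n : ℝ) / 2) := by
  simpa using GaussianFourier.integral_rexp_neg_mul_sq_norm (V := E n) hb

lemma gauss_integrable {b : ℝ} (hb : 0 < b) (x : E n) :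
    Integrable (fun z : E n => Real.exp (-b * ‖z - x‖ ^ 2)) := by
  have h : Integrable (fun z : E n => Real.exp (-b * ‖z‖ ^ 2)) := by
    apply Integrable.of_integral_ne_zero
    rw [gauss_int hb]
    have := Real.pi_pos
    positivity
  exact h.comp_sub_right x

lemma gauss_mul (s : ℝ) (x y z : E n) :
    Real.exp (-(2 * s) * ‖z - x‖ ^ 2) * Real.exp (-(2 * s) * ‖z - y‖ ^ 2) =
      Real.exp (-s * ‖x - y‖ ^ 2) * Real.exp (-(4 * s) * ‖z - (1 / 2 : ℝ) • (x + y)‖ ^ 2) := by
  rw [← Real.exp_add, ← Real.exp_add]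
  congr 1
  have h := parallelogram_law_with_norm ℝ (z - x) (z - y)
  have h1 : z - x + (z - y) = (2 : ℝ) • (z - (1 / 2 : ℝ) • (x + y)) := by
    rw [smul_sub, smul_smul, two_smul]
    norm_num
    abel
  have h2 : z - x - (z - y) = -(x - y) := by abel
  rw [h1, h2, norm_neg, norm_smul, Real.norm_eq_abs, abs_of_pos two_pos] at h
  linear_combination s * h

lemma gauss_conv {s : ℝ} (hs : 0 < s) (x y : E n) :
    ∫ z : E n, Real.exp (-(2 * s) * ‖z - x‖ ^ 2) * Real.exp (-(2 * s) * ‖z - y‖ ^ 2) =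
      Real.exp (-s * ‖x - y‖ ^ 2) * (Real.pi / (4 * s)) ^ ((n : ℝ) / 2) := by
  simp_rw [gauss_mul s x y]
  rw [integral_const_mul]
  congr 1
  rw [integral_sub_right_eq_self (fun z : E n => Real.exp (-(4 * s) * ‖z‖ ^ 2))]
  exact gauss_int (by positivity)

lemma gauss_conv_integrable {s : ℝ} (hs : 0 < s) (x y : E n) :
    Integrable (fun z : E n => Real.exp (-(2 * s) * ‖z - x‖ ^ 2) *
      Real.exp (-(2 * s) * ‖z - y‖ ^ 2)) := by
  simp_rw [gauss_mul s x y]
  exact (gauss_integrable (by positivity) _).const_mul _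

/-- the mass of the narrow Gaussian in a ball -/
noncomputable def J (n : ℕ) (s L : ℝ) : ℝ := ∫ z in ball (0 : E n) L, Real.exp (-(2 * s) * ‖z‖ ^ 2)

lemma J_nonneg (s L : ℝ) : 0 ≤ J n s L :=
  setIntegral_nonneg measurableSet_ball fun _ _ => (Real.exp_pos _).le

lemma J_tendsto {s : ℝ} (hs : 0 < s) :
    Tendsto (fun L : ℝ => J n s L) atTop (𝓝 ((Real.pi / (2 * s)) ^ ((n : ℝ) / 2))) := by
  have hint : Integrable (fun z : E n => Real.exp (-(2 * s) * ‖z‖ ^ 2)) := by
    simpa using gauss_integrable (b := 2 * s) (by positivity) (0 : E n)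
  rw [← gauss_int (n := n) (b := 2 * s) (by positivity)]
  have hcov : AECover (volume : Measure (E n)) atTop (fun L : ℝ => ball (0 : E n) L) := by
    refine ⟨?_, fun L => measurableSet_ball⟩
    refine Filter.Eventually.of_forall fun z => ?_
    filter_upwards [eventually_gt_atTop ‖z‖] with L hL
    rwa [mem_ball_zero_iff]
  exact hcov.integral_tendsto_of_countably_generated hint

lemma J_le {s T L : ℝ} (hs : 0 < s) {x : E n} (hx : ‖x‖ < T) :
    J n s L ≤ ∫ z in ball (0 : E n) (T + L), Real.exp (-(2 * s) * ‖z - x‖ ^ 2) := by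
  have h1 : J n s L = ∫ z in ball x L, Real.exp (-(2 * s) * ‖z - x‖ ^ 2) := by
    unfold J
    rw [← integral_indicator measurableSet_ball, ← integral_indicator measurableSet_ball,
      ← integral_sub_right_eq_self _ x]
    congr 1
    ext z
    simp only [Set.indicator, mem_ball, dist_eq_norm, sub_zero]
  rw [h1]
  apply setIntegral_mono_set (gauss_integrable (by positivity) x).integrableOn
  · exact Filter.Eventually.of_forall fun z => (Real.exp_pos _).le
  · apply LE.le.eventuallyLE
    intro z hz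
    rw [mem_ball, dist_eq_norm] at hz
    rw [mem_ball_zero_iff]
    calc ‖z‖ = ‖x + (z - x)‖ := by congr 1; abel
      _ ≤ ‖x‖ + ‖z - x‖ := norm_add_le _ _
      _ < T + L := by linarith

/-- Positive definiteness of the Gaussian, for a finite set in a ball. -/
theorem positive {s T L : ℝ} (hs : 0 < s) (hT : 0 < T) (hL : 0 < L) (P : Finset (E n))
    (hP : ∀ x ∈ P, ‖x‖ < T) :
    (P.card * J n s L) ^ 2 ≤ volume.real (ball (0 : E n) (T + L)) *
      ((Real.pi / (4 * s)) ^ ((n : ℝ) / 2) *
        ∑ x ∈ P, ∑ y ∈ P, Real.exp (-s * ‖x - y‖ ^ 2)) := by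
  set B := ball (0 : E n) (T + L) with hB
  set V := volume.real B with hV
  have hVpos : 0 < V := by
    rw [hV, measureReal_def, ENNReal.toReal_pos_iff]
    exact ⟨measure_ball_pos _ _ (by positivity), measure_ball_lt_top⟩
  let g : E n → E n → ℝ := fun x z => Real.exp (-(2 * s) * ‖z - x‖ ^ 2)
  let G : E n → ℝ := fun z => ∑ x ∈ P, g x z
  have hgi : ∀ x, Integrable (g x) := fun x => gauss_integrable (by positivity) x
  have hGi : Integrable G := integrable_finsetSum _ fun x _ => hgi x
  have hGG : ∀ z, G z ^ 2 = ∑ x ∈ P, ∑ y ∈ P, g x z * g y z := by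
    intro z
    rw [sq, Finset.sum_mul_sum]
  have hG2i : Integrable (fun z => G z ^ 2) := by
    simp_rw [hGG]
    exact integrable_finsetSum _ fun x _ => integrable_finsetSum _ fun y _ =>
      gauss_conv_integrable hs x y
  have hG2 : ∫ z, G z ^ 2 = (Real.pi / (4 * s)) ^ ((n : ℝ) / 2) *
        ∑ x ∈ P, ∑ y ∈ P, Real.exp (-s * ‖x - y‖ ^ 2) := by
    simp_rw [hGG]
    rw [integral_finsetSum _ fun x _ => integrable_finsetSum _ fun y _ =>
      gauss_conv_integrable hs x y, Finset.mul_sum]
    apply Finset.sum_congr rfl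
    intro x _
    rw [integral_finsetSum _ fun y _ => gauss_conv_integrable hs x y, Finset.mul_sum]
    apply Finset.sum_congr rfl
    intro y _
    rw [mul_comm ((Real.pi / (4 * s)) ^ ((n : ℝ) / 2))]
    exact gauss_conv hs x y
  have hGB : P.card * J n s L ≤ ∫ z in B, G z := by
    rw [integral_finsetSum _ fun x _ => (hgi x).integrableOn]
    calc P.card * J n s L = ∑ x ∈ P, J n s L := by rw [Finset.sum_const, nsmul_eq_mul]
      _ ≤ _ := Finset.sum_le_sum fun x hx => J_le hs (hP x hx)
  have hcs : (∫ z in B, G z) ^ 2 ≤ V * ∫ z in B, G z ^ 2 := by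
    set I := ∫ z in B, G z with hI
    set c := I / V with hc
    have h0 : 0 ≤ ∫ z in B, (G z - c) ^ 2 := integral_nonneg fun z => sq_nonneg _
    have h1 : ∫ z in B, (G z - c) ^ 2 = (∫ z in B, G z ^ 2) - 2 * c * I + c ^ 2 * V := by
      have e : ∀ z, (G z - c) ^ 2 = G z ^ 2 - 2 * c * G z + c ^ 2 := fun z => by ring
      simp_rw [e]
      rw [integral_add, integral_sub, integral_const_mul, setIntegral_const, smul_eq_mul]
      · ring
      · exact hG2i.integrableOn
      · exact (hGi.integrableOn).const_mul _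
      · exact (hG2i.integrableOn).sub ((hGi.integrableOn).const_mul _)
      · exact (integrable_const_iff.2 (Or.inr (by
          refine ⟨?_⟩
          rw [Measure.restrict_apply_univ]
          exact measure_ball_lt_top)))
    rw [h1] at h0
    have h2 : c * V = I := by rw [hc]; field_simp
    nlinarith
  have hBl : ∫ z in B, G z ^ 2 ≤ ∫ z, G z ^ 2 :=
    setIntegral_le_integral hG2i (Filter.Eventually.of_forall fun z => sq_nonneg _)
  have hJ := J_nonneg (n := n) s L
  calc (P.card * J n s L) ^ 2 ≤ (∫ z in B, G z) ^ 2 := by gcongr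
    _ ≤ V * ∫ z in B, G z ^ 2 := hcs
    _ ≤ V * ∫ z, G z ^ 2 := by gcongr
    _ = _ := by rw [hG2]

end Pool.Agent.Q197.NP
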