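import Pool.Agent.Q197.NP.Radial

/-! Counting the points of a fine cubic grid in balls. -/

set_option autoImplicit false

open MeasureTheory Metric Filter Topology Set

namespace Pool.Agent.Q197.NP

variable {n : ℕ}

/-- the grid of mesh `h` -/
noncomputable def kap (h : ℝ) (z : Fin n → ℤ) : E n := WithLp.toLp 2 fun i => h * (z i : ℝ)

lemma kap_apply (h : ℝ) (z : Fin n → ℤ) (i : Fin n) : kap h z i = h * (z i : ℝ) := rfl

lemma kap_sub (h : ℝ) (z w : Fin n → ℤ) : kap h z - kap h w = kap h (z - w) := by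
  ext i
  rw [PiLp.sub_apply, kap_apply, kap_apply, kap_apply, Pi.sub_apply]
  push_cast
  ring

lemma kap_neg (h : ℝ) (z : Fin n → ℤ) : kap h (-z) = -kap h z := by
  ext i
  rw [PiLp.neg_apply, kap_apply, kap_apply, Pi.neg_apply]
  push_cast
  ring

lemma kap_zero (h : ℝ) : kap h (0 : Fin n → ℤ) = 0 := by
  ext i
  rw [kap_apply]
  simp

lemma kap_inj {h : ℝ} (hh : 0 < h) : Function.Injective (kap (n := n) h) := by
  intro z w hzw
  ext i
  have h1 : kap h z i = kap h w i := by rw [hzw]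
  rw [kap_apply, kap_apply] at h1
  have h2 := mul_left_cancel₀ hh.ne' h1
  exact_mod_cast h2

lemma coord_le (x : E n) (i : Fin n) : |x i| ≤ ‖x‖ := by
  have := PiLp.norm_apply_le x i
  rwa [Real.norm_eq_abs] at this

lemma finite_grid {h : ℝ} (hh : 0 < h) (R : ℝ) : {z : Fin n → ℤ | ‖kap h z‖ ≤ R}.Finite := by
  set M : ℤ := ⌈|R| / h⌉ with hM
  refine (Set.finite_Icc (fun _ : Fin n => -M) (fun _ => M)).subset ?_
  intro z hz
  have h1 : ‖kap h z‖ ≤ R := hz
  have h2 : ∀ i, |(z i : ℝ)| ≤ M := by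
    intro i
    have h3 := (coord_le (kap h z) i).trans (h1.trans (le_abs_self R))
    rw [kap_apply, abs_mul, abs_of_pos hh] at h3
    have h4 : |(z i : ℝ)| ≤ |R| / h := by
      rw [le_div_iff₀ hh]
      linarith
    exact h4.trans (Int.le_ceil _)
  rw [Set.mem_Icc]
  constructor
  · intro i
    have := (abs_le.1 (h2 i)).1
    exact_mod_cast this
  · intro i
    have := (abs_le.1 (h2 i)).2
    exact_mod_cast this

/-- the cube at a grid point -/
def cube (h : ℝ) (z : Fin n → ℤ) : Set (E n) := {x | ∀ i, h * z i ≤ x i ∧ x i < h * z i + h}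

lemma cube_eq (h : ℝ) (z : Fin n → ℤ) : cube h z =
    (MeasurableEquiv.toLp 2 (Fin n → ℝ)).symm ⁻¹' (Set.univ.pi fun i => Ico (h * (z i : ℝ))
      (h * z i + h)) := by
  ext x
  simp only [cube, Set.mem_ofPred_eq, Set.mem_preimage, Set.mem_pi, Set.mem_univ, true_imp_iff,
    Set.mem_Ico]
  rfl

lemma cube_meas (h : ℝ) (z : Fin n → ℤ) : MeasurableSet (cube h z) := by
  rw [cube_eq]
  exact (MeasurableEquiv.measurable _) (MeasurableSet.univ_pi fun i => measurableSet_Ico)

lemma cube_vol {h : ℝ} (hh : 0 < h) (z : Fin n → ℤ) : volume.real (cube h z) = h ^ n := by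
  rw [cube_eq, measureReal_def,
    (EuclideanSpace.volume_preserving_symm_measurableEquiv_toLp (Fin n)).measure_preimage
      (MeasurableSet.univ_pi fun i => measurableSet_Ico).nullMeasurableSet, volume_pi_pi]
  simp only [Real.volume_Ico, add_sub_cancel_left, Finset.prod_const, Finset.card_univ,
    Fintype.card_fin]
  rw [ENNReal.toReal_pow, ENNReal.toReal_ofReal hh.le]

lemma cube_fin {h : ℝ} (hh : 0 < h) (z : Fin n → ℤ) : volume (cube h z) ≠ ⊤ := by
  intro htop
  have := cube_vol hh z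
  rw [measureReal_def, htop, ENNReal.toReal_top] at this
  have h2 : 0 < h ^ n := by positivity
  linarith

lemma cube_disj {h : ℝ} (hh : 0 < h) {z w : Fin n → ℤ} (hzw : z ≠ w) :
    Disjoint (cube h z) (cube h w) := by
  rw [Set.disjoint_left]
  intro x hx hy
  apply hzw
  ext i
  obtain ⟨a1, a2⟩ := hx i
  obtain ⟨b1, b2⟩ := hy i
  have h1 : (z i : ℝ) < w i + 1 := by
    have : h * (z i : ℝ) < h * (w i + 1) := by linarith
    exact lt_of_mul_lt_mul_left this hh.le
  have h2 : (w i : ℝ) < z i + 1 := by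
    have : h * (w i : ℝ) < h * (z i + 1) := by linarith
    exact lt_of_mul_lt_mul_left this hh.le
  have h3 : z i < w i + 1 := by exact_mod_cast h1
  have h4 : w i < z i + 1 := by exact_mod_cast h2
  omega

lemma cube_near (hn : 0 < n) {h : ℝ} (hh : 0 < h) {z : Fin n → ℤ} {x : E n} (hx : x ∈ cube h z) :
    ‖x - kap h z‖ < h * √n := by
  have h1 : ‖x - kap h z‖ ^ 2 < (h * √n) ^ 2 := by
    rw [EuclideanSpace.norm_sq_eq, mul_pow, Real.sq_sqrt (by positivity)]
    have h2 : ∀ i ∈ (Finset.univ : Finset (Fin n)), ‖(x - kap h z) i‖ ^ 2 < h ^ 2 := by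
      intro i _
      obtain ⟨a1, a2⟩ := hx i
      rw [PiLp.sub_apply, kap_apply, Real.norm_eq_abs, sq_abs]
      nlinarith
    have : Nonempty (Fin n) := ⟨⟨0, hn⟩⟩
    have h3 := Finset.sum_lt_sum_of_nonempty (Finset.univ_nonempty) h2
    rw [Finset.sum_const, Finset.card_univ, Fintype.card_fin, nsmul_eq_mul] at h3
    linarith
  exact lt_of_pow_lt_pow_left₀ 2 (by positivity) h1

lemma grid_upper (hn : 0 < n) {h : ℝ} (hh : 0 < h) {R : ℝ} (hR : 0 ≤ R) (F : Finset (Fin n → ℤ))
    (hF : ∀ z ∈ F, ‖kap h z‖ ≤ R) : (F.card : ℝ) * h ^ n ≤ vB n * (R + h * √n) ^ n := by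
  have hn' : (0 : ℝ) < n := by exact_mod_cast hn
  have h1 : volume.real (⋃ z ∈ F, cube h z) = F.card * h ^ n := by
    rw [measureReal_biUnion_finset (fun z _ w _ hzw => cube_disj hh hzw)
      (fun z _ => cube_meas h z) (fun z _ => cube_fin hh z),
      Finset.sum_congr rfl (fun z _ => cube_vol hh z), Finset.sum_const, nsmul_eq_mul]
  rw [← h1, ← vol_ball (0 : E n) (by positivity)]
  apply measureReal_mono _ measure_ball_lt_top.ne
  apply Set.iUnion₂_subset
  intro z hz x hx
  rw [mem_ball_zero_iff]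
  have h2 := cube_near hn hh hx
  have h3 := hF z hz
  calc ‖x‖ = ‖kap h z + (x - kap h z)‖ := by congr 1; abel
    _ ≤ ‖kap h z‖ + ‖x - kap h z‖ := norm_add_le _ _
    _ < _ := by linarith

lemma grid_lower (hn : 0 < n) {h : ℝ} (hh : 0 < h) {R : ℝ} (hR : h * √n < R)
    (F : Finset (Fin n → ℤ)) (hF : ∀ z, ‖kap h z‖ < R → z ∈ F) :
    vB n * (R - h * √n) ^ n ≤ (F.card : ℝ) * h ^ n := by
  have h1 : volume.real (⋃ z ∈ F, cube h z) = F.card * h ^ n := by
    rw [measureReal_biUnion_finset (fun z _ w _ hzw => cube_disj hh hzw)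
      (fun z _ => cube_meas h z) (fun z _ => cube_fin hh z),
      Finset.sum_congr rfl (fun z _ => cube_vol hh z), Finset.sum_const, nsmul_eq_mul]
  rw [← h1, ← vol_ball (0 : E n) (by linarith)]
  apply measureReal_mono
  · intro x hx
    rw [mem_ball_zero_iff] at hx
    set z : Fin n → ℤ := fun i => ⌊x i / h⌋ with hz
    have hxz : x ∈ cube h z := by
      intro i
      have h2 := Int.floor_le (x i / h)
      have h3 := Int.lt_floor_add_one (x i / h)
      rw [le_div_iff₀ hh] at h2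
      rw [div_lt_iff₀ hh] at h3
      constructor
      · rw [hz]; simp only; linarith
      · rw [hz]; simp only; linarith
    have h4 := cube_near hn hh hxz
    rw [Set.mem_iUnion₂]
    refine ⟨z, hF z ?_, hxz⟩
    calc ‖kap h z‖ = ‖x - (x - kap h z)‖ := by congr 1; abel
      _ ≤ ‖x‖ + ‖x - kap h z‖ := norm_sub_le _ _
      _ < _ := by linarith
  · refine (lt_of_le_of_lt (measure_biUnion_finset_le F _) ?_).ne
    exact ENNReal.sum_lt_top.2 fun z _ => (cube_fin hh z).lt_top

end Pool.Agent.Q197.NP
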