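import Pool.Agent.Q197.NP.Gauss

/-! Radial integrals of the Gaussian. -/

set_option autoImplicit false

open MeasureTheory Metric Filter Topology Set

namespace Pool.Agent.Q197.NP

variable {n : ℕ}

/-- minus the derivative of `exp (-s R ^ 2)` -/
noncomputable def h (s R : ℝ) : ℝ := 2 * s * R * Real.exp (-s * R ^ 2)

lemma h_cont (s : ℝ) : Continuous (h s) := by unfold h; fun_prop

lemma h_nonneg {s R : ℝ} (hs : 0 < s) (hR : 0 ≤ R) : 0 ≤ h s R := by
  unfold h; positivity

lemma hasDeriv (s R : ℝ) : HasDerivAt (fun R => -Real.exp (-s * R ^ 2)) (h s R) R := by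
  have h1 : HasDerivAt (fun R : ℝ => -s * R ^ 2) (-s * (2 * R)) R := by
    simpa using (hasDerivAt_pow 2 R).const_mul (-s)
  have h2 := h1.exp.neg
  refine h2.congr_deriv ?_
  unfold h
  ring

lemma exp_tendsto {s : ℝ} (hs : 0 < s) :
    Tendsto (fun R : ℝ => -Real.exp (-s * R ^ 2)) atTop (𝓝 0) := by
  have h1 : Tendsto (fun R : ℝ => s * R ^ 2) atTop atTop :=
    Tendsto.const_mul_atTop hs (tendsto_pow_atTop two_ne_zero)
  have h2 := (Real.tendsto_exp_neg_atTop_nhds_zero.comp h1).neg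
  rw [neg_zero] at h2
  refine h2.congr fun R => ?_
  simp [Function.comp]

lemma h_int {s : ℝ} (hs : 0 < s) {t : ℝ} (ht : 0 ≤ t) : IntegrableOn (h s) (Ioi t) := by
  refine integrableOn_Ioi_deriv_of_nonneg' (g := fun R => -Real.exp (-s * R ^ 2)) (l := 0)
    (fun R _ => hasDeriv s R) (fun R hR => h_nonneg hs (ht.trans (le_of_lt hR))) (exp_tendsto hs)

lemma h_tail {s : ℝ} (hs : 0 < s) {t : ℝ} (ht : 0 ≤ t) :
    ∫ R in Ioi t, h s R = Real.exp (-s * t ^ 2) := by
  rw [integral_Ioi_of_hasDerivAt_of_tendsto' (f := fun R => -Real.exp (-s * R ^ 2)) (m := 0)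
    (fun R _ => hasDeriv s R) (h_int hs ht) (exp_tendsto hs)]
  ring

/-- Abel summation -/
lemma abel {ι : Type*} (I : Finset ι) (w t : ι → ℝ) (hw : ∀ i ∈ I, 0 ≤ w i) {s D : ℝ} (hs : 0 < s)
    (hD : 0 ≤ D) (ht : ∀ i ∈ I, D ≤ t i) (U : ℝ → ℝ)
    (hU : ∀ R, D < R → ∑ i ∈ I.filter (fun i => t i ≤ R), w i ≤ U R)
    (hint : IntegrableOn (fun R => h s R * U R) (Ioi D)) :
    ∑ i ∈ I, w i * Real.exp (-s * t i ^ 2) ≤ ∫ R in Ioi D, h s R * U R := by
  classical
  have h1 : ∀ i ∈ I, w i * Real.exp (-s * t i ^ 2) =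
      ∫ R in Ioi D, (Ioi (t i)).indicator (fun R => w i * h s R) R := by
    intro i hi
    rw [setIntegral_indicator measurableSet_Ioi, Ioi_inter_Ioi, sup_eq_right.2 (ht i hi),
      integral_const_mul, h_tail hs (hD.trans (ht i hi))]
  rw [Finset.sum_congr rfl h1, ← integral_finsetSum]
  · apply setIntegral_mono_on
    · apply integrable_finsetSum
      intro i hi
      rw [integrable_indicator_iff measurableSet_Ioi]
      exact Integrable.integrableOn ((h_int hs hD).const_mul (w i))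
    · exact hint
    · exact measurableSet_Ioi
    · intro R hR
      have hR' : D < R := hR
      have h2 : ∑ i ∈ I, (Ioi (t i)).indicator (fun R => w i * h s R) R ≤
          h s R * ∑ i ∈ I.filter (fun i => t i ≤ R), w i := by
        rw [Finset.mul_sum, Finset.sum_filter]
        apply Finset.sum_le_sum
        intro i hi
        have h3 := h_nonneg hs (hD.trans hR'.le)
        have h4 := hw i hi
        by_cases hti : t i < R
        · rw [Set.indicator_of_mem (show R ∈ Ioi (t i) from hti), if_pos hti.le, mul_comm]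
        · rw [Set.indicator_of_notMem (show R ∉ Ioi (t i) from hti)]
          split_ifs <;> positivity
      refine h2.trans ?_
      have h3 := h_nonneg hs (hD.trans hR'.le)
      exact mul_le_mul_of_nonneg_left (hU R hR') h3
  · intro i hi
    rw [integrable_indicator_iff measurableSet_Ioi]
    exact ((h_int hs hD).const_mul (w i)).integrableOn

/-- volume of the unit ball of `ℝ^n` -/
noncomputable def vB (n : ℕ) : ℝ := volume.real (ball (0 : E n) 1)

lemma vB_pos (n : ℕ) : 0 < vB n := by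
  unfold vB
  rw [measureReal_def, ENNReal.toReal_pos_iff]
  exact ⟨measure_ball_pos _ _ one_pos, measure_ball_lt_top⟩

lemma vB_eq (hn : 0 < n) : vB n = √Real.pi ^ n / Real.Gamma ((n : ℝ) / 2 + 1) := by
  have : Nonempty (Fin n) := ⟨⟨0, hn⟩⟩
  unfold vB
  rw [measureReal_def, EuclideanSpace.volume_ball, ENNReal.ofReal_one, one_pow, one_mul,
    Fintype.card_fin, ENNReal.toReal_ofReal]
  exact div_nonneg (by positivity) (Real.Gamma_nonneg_of_nonneg (by positivity))

lemma vol_ball (x : E n) {r : ℝ} (hr : 0 < r) : volume.real (ball x r) = vB n * r ^ n := by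
  unfold vB
  rw [measureReal_def, measureReal_def, Measure.addHaar_ball_of_pos _ _ hr, ENNReal.toReal_mul,
    ENNReal.toReal_ofReal (by positivity), mul_comm]
  simp

lemma hpow_int {s : ℝ} (hs : 0 < s) (n : ℕ) : IntegrableOn (fun R => h s R * R ^ n) (Ioi 0) := by
  have h1 := integrableOn_rpow_mul_exp_neg_mul_rpow (p := 2) (s := (n : ℝ) + 1) (b := s)
    (by have : (0 : ℝ) ≤ n := by positivity
        linarith) (by norm_num) hs
  have h2 := h1.const_mul (2 * s)
  refine IntegrableOn.congr_fun h2 ?_ measurableSet_Ioi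
  intro R hR
  have hR' : 0 < R := hR
  unfold h
  simp only
  rw [Real.rpow_add hR', Real.rpow_natCast, Real.rpow_one]
  have : R ^ (2 : ℝ) = R ^ 2 := by
    rw [← Real.rpow_natCast]; norm_num
  rw [this]
  ring

/-- the Gaussian integral in polar form -/
lemma gauss_polar {s : ℝ} (hs : 0 < s) (hn : 0 < n) :
    vB n * ∫ R in Ioi (0 : ℝ), h s R * R ^ n = (Real.pi / s) ^ ((n : ℝ) / 2) := by
  have h1 := integral_rpow_mul_exp_neg_mul_rpow (p := 2) (q := (n : ℝ) + 1) (b := s)
    (by norm_num) (by have : (0 : ℝ) ≤ n := by positivity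
                      linarith) hs
  have h2 : ∫ R in Ioi (0 : ℝ), h s R * R ^ n =
      2 * s * ∫ R in Ioi (0 : ℝ), R ^ ((n : ℝ) + 1) * Real.exp (-s * R ^ (2 : ℝ)) := by
    rw [← integral_const_mul]
    apply setIntegral_congr_fun measurableSet_Ioi
    intro R hR
    have hR' : 0 < R := hR
    unfold h
    simp only
    rw [Real.rpow_add hR', Real.rpow_natCast, Real.rpow_one]
    have : R ^ (2 : ℝ) = R ^ 2 := by
      rw [← Real.rpow_natCast]; norm_num
    rw [this]
    ring
  rw [h2, h1, vB_eq hn]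
  have hg : ((n : ℝ) + 1 + 1) / 2 = (n : ℝ) / 2 + 1 := by ring
  have hG : 0 < Real.Gamma ((n : ℝ) / 2 + 1) := Real.Gamma_pos_of_pos (by positivity)
  rw [hg]
  have e1 : √Real.pi ^ n = Real.pi ^ ((n : ℝ) / 2) := by
    rw [Real.sqrt_eq_rpow, ← Real.rpow_natCast, ← Real.rpow_mul Real.pi_pos.le]
    congr 1
    ring
  have e2 : s ^ (-((n : ℝ) + 1 + 1) / 2) = (s ^ ((n : ℝ) / 2))⁻¹ * s⁻¹ := by
    rw [← Real.rpow_neg hs.le, ← Real.rpow_neg_one s, ← Real.rpow_add hs]
    congr 1
    ring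
  rw [e1, e2, Real.div_rpow Real.pi_pos.le hs.le]
  field_simp

lemma hpow_head {s D : ℝ} (hs : 0 < s) (hD : 0 < D) (n : ℕ) :
    2 * s * Real.exp (-s * D ^ 2) * D ^ (n + 2) / (n + 2) ≤
      ∫ R in Ioc (0 : ℝ) D, h s R * R ^ n := by
  have h1 : ∫ R in Ioc (0 : ℝ) D, 2 * s * Real.exp (-s * D ^ 2) * R ^ (n + 1) =
      2 * s * Real.exp (-s * D ^ 2) * D ^ (n + 2) / (n + 2) := by
    rw [← intervalIntegral.integral_of_le hD.le, intervalIntegral.integral_const_mul, integral_pow]
    push_cast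
    rw [zero_pow (by omega)]
    ring
  rw [← h1]
  apply setIntegral_mono_on
  · exact (Continuous.integrableOn_Icc (by fun_prop)).mono_set Ioc_subset_Icc_self
  · exact (hpow_int hs n).mono_set Ioc_subset_Ioi_self
  · exact measurableSet_Ioc
  · intro R hR
    unfold h
    have hR0 := hR.1
    have : Real.exp (-s * D ^ 2) ≤ Real.exp (-s * R ^ 2) := by
      apply Real.exp_le_exp.2
      have := hR.2
      nlinarith [mul_le_mul_of_nonneg_left (show R ^ 2 ≤ D ^ 2 by nlinarith) hs.le]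
    calc 2 * s * Real.exp (-s * D ^ 2) * R ^ (n + 1) ≤
        2 * s * Real.exp (-s * R ^ 2) * R ^ (n + 1) := by gcongr
      _ = _ := by ring

/-- the radial integral of the allowed pair counts -/
lemma radial {s D : ℝ} (hs : 0 < s) (hD : 0 < D) (hsD : s * D ^ 2 = 1) (hn : 0 < n) {a b c : ℝ}
    (ha : 0 ≤ a) :
    IntegrableOn (fun R => h s R * (a * (vB n * R ^ n) + b +
      (Ioi (2 * n * D)).indicator (fun R => c * Real.exp (s * R ^ 2 / 2)) R)) (Ioi D) ∧
    ∫ R in Ioi D, h s R * (a * (vB n * R ^ n) + b +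
      (Ioi (2 * n * D)).indicator (fun R => c * Real.exp (s * R ^ 2 / 2)) R) ≤
      a * ((Real.pi / s) ^ ((n : ℝ) / 2) - vB n * D ^ n * (2 * Real.exp (-1) / (n + 2))) +
        b * Real.exp (-1) + c * (2 * Real.exp (-(2 * n ^ 2))) := by
  have hV := vB_pos n
  have hn1 : (1 : ℝ) ≤ n := by exact_mod_cast hn
  have i1 : IntegrableOn (fun R => h s R * R ^ n) (Ioi D) :=
    (hpow_int hs n).mono_set (Ioi_subset_Ioi hD.le)
  have i2 : IntegrableOn (h s) (Ioi D) := h_int hs hD.le
  have hRpos : 0 ≤ 2 * n * D := by positivity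
  have hsub : Ioi (2 * (n : ℝ) * D) ⊆ Ioi D := Ioi_subset_Ioi (by nlinarith)
  have hh : ∀ R, h s R * Real.exp (s * R ^ 2 / 2) = 2 * h (s / 2) R := by
    intro R
    unfold h
    rw [show -s * R ^ 2 = -(s / 2) * R ^ 2 + -(s * R ^ 2 / 2) by ring, Real.exp_add]
    have : Real.exp (-(s * R ^ 2 / 2)) * Real.exp (s * R ^ 2 / 2) = 1 := by
      rw [← Real.exp_add]; simp
    calc _ = 2 * s * R * Real.exp (-(s / 2) * R ^ 2) *
          (Real.exp (-(s * R ^ 2 / 2)) * Real.exp (s * R ^ 2 / 2)) := by ring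
      _ = _ := by rw [this]; ring
  have i3 : IntegrableOn (fun R => (Ioi (2 * n * D)).indicator
      (fun R => 2 * c * h (s / 2) R) R) (Ioi D) := by
    rw [IntegrableOn, integrable_indicator_iff measurableSet_Ioi]
    exact ((h_int (half_pos hs) hD.le).const_mul _).integrableOn
  have hfun : (fun R => h s R * (a * (vB n * R ^ n) + b +
      (Ioi (2 * n * D)).indicator (fun R => c * Real.exp (s * R ^ 2 / 2)) R)) =
      fun R => a * vB n * (h s R * R ^ n) + b * h s R +
        (Ioi (2 * n * D)).indicator (fun R => 2 * c * h (s / 2) R) R := by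
    ext R
    by_cases hR : R ∈ Ioi (2 * (n : ℝ) * D)
    · rw [Set.indicator_of_mem hR, Set.indicator_of_mem hR]
      linear_combination c * hh R
    · rw [Set.indicator_of_notMem hR, Set.indicator_of_notMem hR]
      ring
  rw [hfun]
  refine ⟨((i1.const_mul _).add (i2.const_mul _)).add i3, ?_⟩
  have hsplit : ∫ R in Ioi D, (a * vB n * (h s R * R ^ n) + b * h s R +
        (Ioi (2 * n * D)).indicator (fun R => 2 * c * h (s / 2) R) R) =
      a * vB n * (∫ R in Ioi D, h s R * R ^ n) + b * (∫ R in Ioi D, h s R) +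
        ∫ R in Ioi D, (Ioi (2 * n * D)).indicator (fun R => 2 * c * h (s / 2) R) R := by
    rw [← integral_const_mul, ← integral_const_mul, ← integral_add (i1.const_mul _)
      (i2.const_mul _), ← integral_add (f := fun R => a * vB n * (h s R * R ^ n) + b * h s R)
      ((i1.const_mul _).add (i2.const_mul _)) i3]
  rw [hsplit, h_tail hs hD.le, setIntegral_indicator measurableSet_Ioi, inter_eq_right.2 hsub,
    integral_const_mul, h_tail (half_pos hs) hRpos]
  have e1 : -s * D ^ 2 = -1 := by linarith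
  have e2 : -(s / 2) * (2 * n * D) ^ 2 = -(2 * n ^ 2) := by
    linear_combination (-2 * (n : ℝ) ^ 2) * hsD
  rw [e1, e2]
  have h1 : ∫ R in Ioi D, h s R * R ^ n = (∫ R in Ioi (0 : ℝ), h s R * R ^ n) -
      ∫ R in Ioc (0 : ℝ) D, h s R * R ^ n := by
    rw [eq_sub_iff_add_eq, add_comm, ← setIntegral_union]
    · rw [Ioc_union_Ioi_eq_Ioi hD.le]
    · exact Set.disjoint_left.2 fun x hx hx2 => absurd hx.2 (not_le.2 hx2)
    · exact measurableSet_Ioi
    · exact (hpow_int hs n).mono_set Ioc_subset_Ioi_self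
    · exact i1
  have h2 := gauss_polar hs hn
  have h3 := hpow_head hs hD n
  rw [e1] at h3
  have h4 : 2 * s * Real.exp (-1) * D ^ (n + 2) / (n + 2) = D ^ n * (2 * Real.exp (-1) / (n + 2)) := by
    rw [pow_add]
    calc _ = (s * D ^ 2) * (D ^ n * (2 * Real.exp (-1) / (n + 2))) := by ring
      _ = _ := by rw [hsD, one_mul]
  rw [h4] at h3
  rw [h1]
  have h5 : a * vB n * ((∫ R in Ioi (0 : ℝ), h s R * R ^ n) - ∫ R in Ioc (0 : ℝ) D, h s R * R ^ n) ≤
      a * ((Real.pi / s) ^ ((n : ℝ) / 2) - vB n * D ^ n * (2 * Real.exp (-1) / (n + 2))) := by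
    rw [← h2]
    have := mul_le_mul_of_nonneg_left h3 (show 0 ≤ a * vB n by positivity)
    linarith
  linarith

end Pool.Agent.Q197.NP
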