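import Pool.Agent.Q197.NP.Radial
import Pool.Agent.Q197.NP.Defs

/-! Upper bound for the density of random packings without clustering. -/

set_option autoImplicit false

open MeasureTheory Metric Filter Topology Set

namespace Pool.Agent.Q197.NP

variable {n : ℕ}

/-- number of separated points in a ball -/
lemma card_ball_le {D : ℝ} (hD : 0 < D) (P : Finset (E n))
    (hP : ∀ x ∈ P, ∀ y ∈ P, x ≠ y → D ≤ ‖x - y‖) (c : E n) {R : ℝ} (hR : 0 ≤ R)
    (hPR : ∀ x ∈ P, ‖c - x‖ ≤ R) : (P.card : ℝ) ≤ (1 + 2 * (R / D)) ^ n := by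
  have hV := vB_pos n
  have h1 : volume.real (⋃ x ∈ P, ball x (D / 2)) = ∑ x ∈ P, volume.real (ball x (D / 2)) := by
    apply measureReal_biUnion_finset
    · intro x hx y hy hxy
      have h2 := hP x hx y hy hxy
      change Disjoint (ball x (D / 2)) (ball y (D / 2))
      rw [disjoint_ball_ball_iff (by positivity) (by positivity), dist_eq_norm]
      linarith
    · intro b _; exact measurableSet_ball
    · intro b _; exact measure_ball_lt_top.ne
  have h2 : volume.real (⋃ x ∈ P, ball x (D / 2)) ≤ volume.real (ball c (R + D / 2)) := by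
    apply measureReal_mono
    · apply iUnion₂_subset
      intro x hx
      apply ball_subset_ball'
      rw [dist_eq_norm, norm_sub_rev]
      linarith [hPR x hx]
    · exact measure_ball_lt_top.ne
  rw [h1, vol_ball c (by positivity)] at h2
  have h3 : ∀ x ∈ P, volume.real (ball x (D / 2)) = vB n * (D / 2) ^ n := by
    intro x _; rw [vol_ball x (by positivity)]
  rw [Finset.sum_congr rfl h3, Finset.sum_const, nsmul_eq_mul] at h2
  have h4 : (P.card : ℝ) * (D / 2) ^ n ≤ (R + D / 2) ^ n := by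
    have : vB n * ((P.card : ℝ) * (D / 2) ^ n) ≤ vB n * (R + D / 2) ^ n := by linarith
    exact le_of_mul_le_mul_left this hV
  have h5 : (1 + 2 * (R / D)) ^ n * (D / 2) ^ n = (R + D / 2) ^ n := by
    rw [← mul_pow]
    congr 1
    field_simp
    ring
  rw [← h5] at h4
  exact le_of_mul_le_mul_right h4 (by positivity)

lemma finite_inter {D : ℝ} (hD : 0 < D) (X : Set (E n))
    (hX : ∀ x ∈ X, ∀ y ∈ X, x ≠ y → D ≤ ‖x - y‖) (T : ℝ) : (X ∩ ball 0 T).Finite := by
  by_contra hinf
  have hinf' : (X ∩ ball 0 T).Infinite := hinf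
  obtain ⟨N, hN⟩ := exists_nat_gt ((1 + 2 * (|T| / D)) ^ n)
  obtain ⟨P, hP1, hP2⟩ := hinf'.exists_subset_card_eq N
  have h1 := card_ball_le hD P (fun x hx y hy => hX x (hP1 hx).1 y (hP1 hy).1) 0 (abs_nonneg T)
    (fun x hx => by
      have := (hP1 hx).2
      rw [mem_ball_zero_iff] at this
      rw [zero_sub, norm_neg]
      exact this.le.trans (le_abs_self T))
  rw [hP2] at h1
  linarith

lemma tail_pow {u : ℝ} (hn : 0 < n) (hu : 2 * n ≤ u) :
    (1 + 2 * u) ^ n ≤ Real.exp (u ^ 2 / 2) := by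
  have hn1 : (1 : ℝ) ≤ n := by exact_mod_cast hn
  have hu2 : 2 ≤ u := by linarith
  have h1 : 1 + 2 * u ≤ Real.exp u := by
    have := Real.quadratic_le_exp_of_nonneg (show 0 ≤ u by linarith)
    nlinarith
  calc (1 + 2 * u) ^ n ≤ Real.exp u ^ n := pow_le_pow_left₀ (by linarith) h1 n
    _ = Real.exp (n * u) := by rw [← Real.exp_nat_mul]
    _ ≤ _ := Real.exp_le_exp.2 (by nlinarith)

/-- the finite inequality -/
theorem fin_bound (C : RandomPacking n) {D : ℝ} (hD : 0 < D) (hC : C.MinDist D) (hn : 0 < n)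
    {s : ℝ} (hs : 0 < s) (hsD : s * D ^ 2 = 1) {T L : ℝ} (hT : 0 < T) (hL : 0 < L)
    {ρ B : ℝ} (hρ : 0 ≤ ρ)
    (hpairs : ∀ R, 0 ≤ R → R ≤ 2 * n * D → C.pairs T R ≤ C.count T * (ρ * (vB n * R ^ n) + B)) :
    (C.count T * J n s L) ^ 2 ≤ vB n * (T + L) ^ n * ((Real.pi / (4 * s)) ^ ((n : ℝ) / 2) *
      (C.count T * (1 + (ρ * ((Real.pi / s) ^ ((n : ℝ) / 2) -
        vB n * D ^ n * (2 * Real.exp (-1) / (n + 2))) + B * Real.exp (-1) +
          2 * Real.exp (-(2 * n ^ 2)))))) := by
  classical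
  have hfin : ∀ ω, (C.centres ω ∩ ball 0 T).Finite := fun ω => finite_inter hD _ (hC ω) T
  let P : C.Ω → Finset (E n) := fun ω => (hfin ω).toFinset
  have hPmem : ∀ ω x, x ∈ P ω ↔ x ∈ C.centres ω ∧ ‖x‖ < T := by
    intro ω x
    simp [P]
  have hN : C.count T = ∑ ω, C.p ω * (P ω).card := by
    unfold RandomPacking.count
    apply Finset.sum_congr rfl
    intro ω _
    rw [Set.ncard_eq_toFinset_card _ (hfin ω)]
  have hpr : ∀ R, C.pairs T R = ∑ ω, C.p ω *
      (((P ω ×ˢ P ω).filter (fun z => z.1 ≠ z.2)).filter (fun z => ‖z.1 - z.2‖ ≤ R)).card := by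
    intro R
    unfold RandomPacking.pairs
    apply Finset.sum_congr rfl
    intro ω _
    congr 1
    rw [← Set.ncard_coe_finset]
    congr 2
    ext z
    simp only [near, Set.mem_ofPred_eq, Finset.coe_filter, Finset.mem_filter, Finset.mem_product,
      hPmem]
    tauto
  have hN0 : 0 ≤ C.count T := by
    rw [hN]
    exact Finset.sum_nonneg fun ω _ => mul_nonneg (C.nonneg ω) (by positivity)
  -- positivity of the Gaussian
  have hJ := J_nonneg (n := n) s L
  set c1 := (Real.pi / (4 * s)) ^ ((n : ℝ) / 2) with hc1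
  have hc1pos : 0 < c1 := by
    have := Real.pi_pos
    positivity
  have hvol : volume.real (ball (0 : E n) (T + L)) = vB n * (T + L) ^ n :=
    vol_ball _ (by positivity)
  have hV := vB_pos n
  have step1 : ∀ ω, ((P ω).card * J n s L) ^ 2 ≤ vB n * (T + L) ^ n * (c1 *
      ∑ x ∈ P ω, ∑ y ∈ P ω, Real.exp (-s * ‖x - y‖ ^ 2)) := by
    intro ω
    rw [← hvol]
    exact positive hs hT hL (P ω) fun x hx => ((hPmem ω x).1 hx).2
  have step2 : (C.count T * J n s L) ^ 2 ≤ ∑ ω, C.p ω * ((P ω).card * J n s L) ^ 2 := by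
    set m := C.count T * J n s L with hm
    have h0 : 0 ≤ ∑ ω, C.p ω * ((P ω).card * J n s L - m) ^ 2 :=
      Finset.sum_nonneg fun ω _ => mul_nonneg (C.nonneg ω) (sq_nonneg _)
    have h1 : ∑ ω, C.p ω * ((P ω).card * J n s L - m) ^ 2 =
        ∑ ω, C.p ω * ((P ω).card * J n s L) ^ 2 - 2 * m * (∑ ω, C.p ω * (P ω).card) * J n s L +
          m ^ 2 * ∑ ω, C.p ω := by
      rw [Finset.mul_sum, Finset.mul_sum, Finset.sum_mul, ← Finset.sum_sub_distrib,
        ← Finset.sum_add_distrib]
      apply Finset.sum_congr rfl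
      intro ω _
      ring
    rw [h1, C.sum_one, ← hN, mul_one] at h0
    have h2 : 2 * m * C.count T * J n s L = 2 * m ^ 2 := by rw [hm]; ring
    linarith
  have step3 : ∀ ω, ∑ x ∈ P ω, ∑ y ∈ P ω, Real.exp (-s * ‖x - y‖ ^ 2) =
      (P ω).card + ∑ z ∈ (P ω ×ˢ P ω).filter (fun z => z.1 ≠ z.2),
        Real.exp (-s * ‖z.1 - z.2‖ ^ 2) := by
    intro ω
    rw [← Finset.sum_product', ← Finset.sum_filter_add_sum_filter_not (P ω ×ˢ P ω)
      (fun z => z.1 = z.2)]
    congr 1
    have h1 : (P ω ×ˢ P ω).filter (fun z => z.1 = z.2) = (P ω).image (fun x => (x, x)) := by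
      ext ⟨x, y⟩
      simp only [Finset.mem_filter, Finset.mem_product, Finset.mem_image, Prod.mk.injEq]
      constructor
      · rintro ⟨⟨h1, h2⟩, rfl⟩
        exact ⟨x, h1, rfl, rfl⟩
      · rintro ⟨a, ha, rfl, rfl⟩
        exact ⟨⟨ha, ha⟩, rfl⟩
    rw [h1, Finset.sum_image (fun a _ b _ hab => (Prod.mk.inj hab).1)]
    simp
  -- Abel summation
  let I : Finset (Σ _ : C.Ω, E n × E n) :=
    Finset.univ.sigma fun ω => (P ω ×ˢ P ω).filter (fun z => z.1 ≠ z.2)
  have hIsum : ∀ f : (Σ _ : C.Ω, E n × E n) → ℝ, ∑ i ∈ I, f i =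
      ∑ ω, ∑ z ∈ (P ω ×ˢ P ω).filter (fun z => z.1 ≠ z.2), f ⟨ω, z⟩ := by
    intro f
    rw [Finset.sum_sigma]
  have hW : ∀ R, ∑ i ∈ I.filter (fun i => ‖i.2.1 - i.2.2‖ ≤ R), C.p i.1 = C.pairs T R := by
    intro R
    rw [Finset.sum_filter, hIsum, hpr]
    apply Finset.sum_congr rfl
    intro ω _
    simp only
    rw [← Finset.sum_filter, Finset.sum_const, nsmul_eq_mul, mul_comm]
  have hbig : ∀ R, 2 * n * D < R → C.pairs T R ≤ C.count T * Real.exp (s * R ^ 2 / 2) := by
    intro R hR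
    have hR0 : 0 ≤ R := le_trans (by positivity) hR.le
    rw [hpr, hN, Finset.sum_mul]
    apply Finset.sum_le_sum
    intro ω _
    rw [mul_assoc]
    apply mul_le_mul_of_nonneg_left _ (C.nonneg ω)
    have h1 : ((P ω ×ˢ P ω).filter (fun z => z.1 ≠ z.2)).filter (fun z => ‖z.1 - z.2‖ ≤ R) ⊆
        (P ω).biUnion fun x => ((P ω).filter fun y => ‖x - y‖ ≤ R).image fun y => (x, y) := by
      intro z hz
      simp only [Finset.mem_filter, Finset.mem_product] at hz
      simp only [Finset.mem_biUnion, Finset.mem_image, Finset.mem_filter]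
      exact ⟨z.1, hz.1.1.1, z.2, ⟨hz.1.1.2, hz.2⟩, rfl⟩
    have h2 : ∀ x ∈ P ω, ((((P ω).filter fun y => ‖x - y‖ ≤ R).image fun y => (x, y)).card : ℝ) ≤
        Real.exp (s * R ^ 2 / 2) := by
      intro x _
      have h3 : ((((P ω).filter fun y => ‖x - y‖ ≤ R).image fun y => (x, y)).card : ℝ) ≤
          ((P ω).filter fun y => ‖x - y‖ ≤ R).card := by
        exact_mod_cast Finset.card_image_le
      refine h3.trans ?_
      have h4 := card_ball_le hD ((P ω).filter fun y => ‖x - y‖ ≤ R) (fun a ha b hb =>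
        hC ω a ((hPmem ω a).1 (Finset.mem_filter.1 ha).1).1 b
          ((hPmem ω b).1 (Finset.mem_filter.1 hb).1).1) x hR0
        (fun a ha => (Finset.mem_filter.1 ha).2)
      refine h4.trans ?_
      have h5 := tail_pow (n := n) (u := R / D) hn (by
        rw [le_div_iff₀ hD]
        exact hR.le)
      refine h5.trans (le_of_eq ?_)
      congr 1
      have : s = 1 / D ^ 2 := by field_simp; linarith
      rw [this]
      field_simp
    calc ((((P ω ×ˢ P ω).filter (fun z => z.1 ≠ z.2)).filter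
          (fun z => ‖z.1 - z.2‖ ≤ R)).card : ℝ)
        ≤ (((P ω).biUnion fun x => ((P ω).filter fun y => ‖x - y‖ ≤ R).image
          fun y => (x, y)).card : ℝ) := by exact_mod_cast Finset.card_le_card h1
      _ ≤ ((∑ x ∈ P ω, (((P ω).filter fun y => ‖x - y‖ ≤ R).image fun y => (x, y)).card : ℕ) : ℝ) := by
          exact_mod_cast Finset.card_biUnion_le
      _ ≤ ∑ x ∈ P ω, Real.exp (s * R ^ 2 / 2) := by
          push_cast
          exact Finset.sum_le_sum h2
      _ = (P ω).card * Real.exp (s * R ^ 2 / 2) := by rw [Finset.sum_const, nsmul_eq_mul]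
  have hrad := radial hs hD hsD hn (a := C.count T * ρ) (b := C.count T * B) (c := C.count T)
    (by positivity)
  have hab := abel I (fun i => C.p i.1) (fun i => ‖i.2.1 - i.2.2‖) (fun i _ => C.nonneg i.1) hs
    hD.le (by
      intro i hi
      have h1 : i.2 ∈ (P i.1 ×ˢ P i.1).filter (fun z => z.1 ≠ z.2) := by
        have := (Finset.mem_sigma.1 hi).2
        exact this
      rw [Finset.mem_filter, Finset.mem_product] at h1
      exact hC i.1 _ ((hPmem _ _).1 h1.1.1).1 _ ((hPmem _ _).1 h1.1.2).1 h1.2)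
    (fun R => C.count T * ρ * (vB n * R ^ n) + C.count T * B +
      (Ioi (2 * n * D)).indicator (fun R => C.count T * Real.exp (s * R ^ 2 / 2)) R)
    (by
      intro R hR
      rw [hW]
      by_cases h1 : R ≤ 2 * n * D
      · rw [Set.indicator_of_notMem (by
          rw [mem_Ioi, not_lt]
          exact h1), add_zero]
        have := hpairs R (hD.le.trans hR.le) h1
        linarith
      · rw [not_le] at h1
        rw [Set.indicator_of_mem (by exact h1)]
        have h2 := hbig R h1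
        have h3 : 0 ≤ C.count T * ρ * (vB n * R ^ n) + C.count T * B := by
          have h4 := hpairs 0 le_rfl (by positivity)
          have h5 : 0 ≤ C.pairs T 0 := by
            rw [hpr]
            exact Finset.sum_nonneg fun ω _ => mul_nonneg (C.nonneg ω) (by positivity)
          rw [zero_pow hn.ne', mul_zero, mul_zero, zero_add] at h4
          have h6 : 0 ≤ C.count T * B := h5.trans h4
          have h7 : 0 < R := lt_of_le_of_lt (by positivity) h1
          positivity
        linarith) hrad.1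
  have step4 := hab.trans hrad.2
  rw [hIsum] at step4
  -- conclusion
  calc (C.count T * J n s L) ^ 2 ≤ ∑ ω, C.p ω * ((P ω).card * J n s L) ^ 2 := step2
    _ ≤ ∑ ω, C.p ω * (vB n * (T + L) ^ n * (c1 *
      ∑ x ∈ P ω, ∑ y ∈ P ω, Real.exp (-s * ‖x - y‖ ^ 2))) :=
        Finset.sum_le_sum fun ω _ => mul_le_mul_of_nonneg_left (step1 ω) (C.nonneg ω)
    _ = vB n * (T + L) ^ n * (c1 * (C.count T + ∑ ω,
        ∑ z ∈ (P ω ×ˢ P ω).filter (fun z => z.1 ≠ z.2),
          C.p ω * Real.exp (-s * ‖z.1 - z.2‖ ^ 2))) := by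
        rw [hN, ← Finset.sum_add_distrib, Finset.mul_sum, Finset.mul_sum]
        apply Finset.sum_congr rfl
        intro ω _
        rw [step3, ← Finset.mul_sum]
        ring
    _ ≤ _ := by
        apply mul_le_mul_of_nonneg_left _ (by positivity)
        apply mul_le_mul_of_nonneg_left _ hc1pos.le
        simp only at step4
        linarith

end Pool.Agent.Q197.NP
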